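import Mathlib

/-!
# Chains in an exterior algebra: boundary, contraction, boards
-/

set_option autoImplicit false

open CliffordAlgebra (contractLeft)

namespace Pool.Agent.Helper612.TV

variable (R : Type*) [CommRing R] {V : Type*}

/-- the generator of a vertex -/
noncomputable def e (v : V) : ExteriorAlgebra R (V →₀ R) :=
  ExteriorAlgebra.ι R (Finsupp.single v 1)

/-- augmentation -/
noncomputable def eps : Module.Dual R (V →₀ R) := Finsupp.linearCombination R (fun _ => (1 : R))

/-- boundary -/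
noncomputable def bd : ExteriorAlgebra R (V →₀ R) →ₗ[R] ExteriorAlgebra R (V →₀ R) :=
  contractLeft (eps R)

/-- contraction with a vertex -/
noncomputable def dv (v : V) : ExteriorAlgebra R (V →₀ R) →ₗ[R] ExteriorAlgebra R (V →₀ R) :=
  contractLeft (Finsupp.lapply v)

lemma bd_e_mul (v : V) (y : ExteriorAlgebra R (V →₀ R)) :
    bd R (e R v * y) = y - e R v * bd R y := by
  unfold bd e
  rw [ExteriorAlgebra.ι, CliffordAlgebra.contractLeft_ι_mul]
  simp [eps]

lemma bd_one : bd R (1 : ExteriorAlgebra R (V →₀ R)) = 0 :=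
  CliffordAlgebra.contractLeft_one _ _

lemma bd_bd (y : ExteriorAlgebra R (V →₀ R)) : bd R (bd R y) = 0 :=
  CliffordAlgebra.contractLeft_contractLeft _ y

lemma dv_one (v : V) : dv R v (1 : ExteriorAlgebra R (V →₀ R)) = 0 :=
  CliffordAlgebra.contractLeft_one _ _

lemma bd_dv (v : V) (y : ExteriorAlgebra R (V →₀ R)) : bd R (dv R v y) = - dv R v (bd R y) :=
  CliffordAlgebra.contractLeft_comm _ _ y

lemma dv_e_mul_self (v : V) (y : ExteriorAlgebra R (V →₀ R)) :
    dv R v (e R v * y) = y - e R v * dv R v y := by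
  unfold dv e
  rw [ExteriorAlgebra.ι, CliffordAlgebra.contractLeft_ι_mul]
  simp

lemma dv_e_mul_ne {v w : V} (h : v ≠ w) (y : ExteriorAlgebra R (V →₀ R)) :
    dv R v (e R w * y) = - (e R w * dv R v y) := by
  unfold dv e
  rw [ExteriorAlgebra.ι, CliffordAlgebra.contractLeft_ι_mul]
  simp [h.symm]

lemma e_mul_e_mul (v w : V) (y : ExteriorAlgebra R (V →₀ R)) :
    e R v * (e R w * y) = - (e R w * (e R v * y)) := by
  have h := ExteriorAlgebra.ι_add_mul_swap (R := R) (Finsupp.single v (1 : R))
    (Finsupp.single w (1 : R))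
  rw [← mul_assoc, ← mul_assoc, ← neg_mul]
  congr 1
  exact eq_neg_of_add_eq_zero_left h

/-- the product of the generators along a list -/
noncomputable def mono (l : List V) : ExteriorAlgebra R (V →₀ R) := (l.map (e R)).prod

lemma mono_nil : mono R ([] : List V) = 1 := rfl

lemma mono_cons (v : V) (l : List V) : mono R (v :: l) = e R v * mono R l := by
  simp [mono]

lemma mono_append (l l' : List V) : mono R (l ++ l') = mono R l * mono R l' := by
  simp [mono]

lemma dv_mono_not_mem (v : V) (l : List V) (h : v ∉ l) : dv R v (mono R l) = 0 := by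
  induction l with
  | nil => rw [mono_nil, dv_one]
  | cons w l ih =>
    rw [List.mem_cons, not_or] at h
    rw [mono_cons, dv_e_mul_ne R h.1, ih h.2, mul_zero, neg_zero]

lemma mono_erase [DecidableEq V] (v : V) (l : List V) (h : v ∈ l) (hl : l.Nodup) :
    ∃ c : R, mono R l = c • (e R v * mono R (l.erase v)) ∧
      dv R v (mono R l) = c • mono R (l.erase v) := by
  induction l with
  | nil => simp at h
  | cons w l ih =>
    rw [List.nodup_cons] at hl
    by_cases hw : w = v
    · subst hw
      refine ⟨1, ?_, ?_⟩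
      · rw [List.erase_cons_head, mono_cons, one_smul]
      · rw [List.erase_cons_head, mono_cons, dv_e_mul_self, dv_mono_not_mem R w l hl.1, mul_zero,
          sub_zero, one_smul]
    · have hv : v ∈ l := by
        rcases List.mem_cons.1 h with h | h
        · exact absurd h.symm hw
        · exact h
      obtain ⟨c, h1, h2⟩ := ih hv hl.2
      have he : (w :: l).erase v = w :: l.erase v := by
        rw [List.erase_cons_tail]
        simpa using hw
      refine ⟨-c, ?_, ?_⟩
      · rw [he, mono_cons, h1, mono_cons, mul_smul_comm, e_mul_e_mul, smul_neg, neg_smul]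
      · rw [he, mono_cons, dv_e_mul_ne R (Ne.symm hw), h2, mono_cons, mul_smul_comm, neg_smul]

/-- A board: vertices are the cells `(row, column)` with matching blocks. -/
structure Board (V P Q J : Type*) where
  row : V → P
  col : V → Q
  bP : P → J
  bQ : Q → J
  vert : P → Q → V
  h1 : ∀ v, bP (row v) = bQ (col v)
  hr : ∀ ρ x, bP ρ = bQ x → row (vert ρ x) = ρ
  hc : ∀ ρ x, bP ρ = bQ x → col (vert ρ x) = x
  hv : ∀ v, vert (row v) (col v) = v

variable {P Q J : Type*} (B : Board V P Q J)

/-- a partial matching inside rows `S` and columns `T`, as a list -/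
def Face (S : Finset P) (T : Finset Q) (l : List V) : Prop :=
  l.Pairwise (fun v w => B.row v ≠ B.row w ∧ B.col v ≠ B.col w) ∧
    ∀ v ∈ l, B.row v ∈ S ∧ B.col v ∈ T

variable {B}

lemma Face.nodup {S : Finset P} {T : Finset Q} {l : List V} (h : Face B S T l) : l.Nodup := by
  refine h.1.imp ?_
  intro a b hab hne
  exact hab.1 (by rw [hne])

lemma Face.mono {S S' : Finset P} {T T' : Finset Q} {l : List V} (h : Face B S T l)
    (hS : S ⊆ S') (hT : T ⊆ T') : Face B S' T' l :=
  ⟨h.1, fun v hv => ⟨hS (h.2 v hv).1, hT (h.2 v hv).2⟩⟩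

lemma Face.ne_of_ne {S : Finset P} {T : Finset Q} {l : List V} (h : Face B S T l) {v w : V}
    (hv : v ∈ l) (hw : w ∈ l) (hne : v ≠ w) : B.row v ≠ B.row w ∧ B.col v ≠ B.col w := by
  haveI : Std.Symm (fun v w => B.row v ≠ B.row w ∧ B.col v ≠ B.col w) :=
    ⟨fun _ _ hab => ⟨hab.1.symm, hab.2.symm⟩⟩
  exact h.1.forall hv hw hne

lemma Face.erase [DecidableEq V] [DecidableEq P] [DecidableEq Q]
    {S : Finset P} {T : Finset Q} {l : List V} (h : Face B S T l)
    {v : V} (hv : v ∈ l) : Face B (S.erase (B.row v)) (T.erase (B.col v)) (l.erase v) := by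
  have hnd := h.nodup
  refine ⟨h.1.sublist List.erase_sublist, fun w hw => ?_⟩
  rw [hnd.mem_erase_iff] at hw
  have h2 := h.ne_of_ne hw.2 hv hw.1
  have h3 := h.2 w hw.2
  exact ⟨Finset.mem_erase.2 ⟨h2.1, h3.1⟩, Finset.mem_erase.2 ⟨h2.2, h3.2⟩⟩

lemma Face.cons [DecidableEq P] [DecidableEq Q]
    {S : Finset P} {T : Finset Q} {l : List V} {ρ : P} {x : Q}
    (hρ : ρ ∈ S) (hx : x ∈ T) (hb : B.bP ρ = B.bQ x)
    (h : Face B (S.erase ρ) (T.erase x) l) : Face B S T (B.vert ρ x :: l) := by
  refine ⟨List.pairwise_cons.2 ⟨fun w hw => ?_, h.1⟩, fun w hw => ?_⟩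
  · rw [B.hr ρ x hb, B.hc ρ x hb]
    have := h.2 w hw
    exact ⟨(Finset.mem_erase.1 this.1).1.symm, (Finset.mem_erase.1 this.2).1.symm⟩
  · rcases List.mem_cons.1 hw with rfl | hw
    · rw [B.hr ρ x hb, B.hc ρ x hb]; exact ⟨hρ, hx⟩
    · have := h.2 w hw
      exact ⟨Finset.mem_of_mem_erase this.1, Finset.mem_of_mem_erase this.2⟩

variable (B)

/-- chains of degree `q` on the board `(S, T)` -/
noncomputable def Ch (q : ℕ) (S : Finset P) (T : Finset Q) :
    Submodule R (ExteriorAlgebra R (V →₀ R)) :=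
  Submodule.span R {z | ∃ l : List V, Face B S T l ∧ l.length = q ∧ z = mono R l}

variable {B}

lemma mono_mem {q : ℕ} {S : Finset P} {T : Finset Q} {l : List V} (h : Face B S T l)
    (hl : l.length = q) : mono R l ∈ Ch R B q S T :=
  Submodule.subset_span ⟨l, h, hl, rfl⟩

lemma Ch_mono (q : ℕ) {S S' : Finset P} {T T' : Finset Q} (hS : S ⊆ S') (hT : T ⊆ T') :
    Ch R B q S T ≤ Ch R B q S' T' := by
  refine Submodule.span_mono ?_
  rintro z ⟨l, h, hl, rfl⟩
  exact ⟨l, h.mono hS hT, hl, rfl⟩

lemma one_mem (S : Finset P) (T : Finset Q) : (1 : ExteriorAlgebra R (V →₀ R)) ∈ Ch R B 0 S T := by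
  refine mono_mem R (l := []) ⟨List.Pairwise.nil, by simp⟩ rfl

lemma dv_mem [DecidableEq V] [DecidableEq P] [DecidableEq Q] {q : ℕ} {S : Finset P} {T : Finset Q}
    {z : ExteriorAlgebra R (V →₀ R)} (hz : z ∈ Ch R B (q + 1) S T) (v : V) :
    dv R v z ∈ Ch R B q (S.erase (B.row v)) (T.erase (B.col v)) := by
  unfold Ch at hz
  induction hz using Submodule.span_induction with
  | mem z hz =>
    obtain ⟨l, hl, hq, rfl⟩ := hz
    by_cases hv : v ∈ l
    · obtain ⟨c, _, h2⟩ := mono_erase R v l hv hl.nodup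
      rw [h2]
      refine Submodule.smul_mem _ _ (mono_mem R (hl.erase hv) ?_)
      rw [List.length_erase_of_mem hv, hq]; rfl
    · rw [dv_mono_not_mem R v l hv]; exact Submodule.zero_mem _
  | zero => rw [map_zero]; exact Submodule.zero_mem _
  | add x y _ _ hx hy => rw [map_add]; exact Submodule.add_mem _ hx hy
  | smul c x _ hx => rw [map_smul]; exact Submodule.smul_mem _ _ hx

lemma e_mul_mem [DecidableEq P] [DecidableEq Q] {q : ℕ} {S : Finset P} {T : Finset Q}
    {ρ : P} {x : Q} (hρ : ρ ∈ S) (hx : x ∈ T) (hb : B.bP ρ = B.bQ x)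
    {y : ExteriorAlgebra R (V →₀ R)} (hy : y ∈ Ch R B q (S.erase ρ) (T.erase x)) :
    e R (B.vert ρ x) * y ∈ Ch R B (q + 1) S T := by
  unfold Ch at hy
  induction hy using Submodule.span_induction with
  | mem z hz =>
    obtain ⟨l, hl, hq, rfl⟩ := hz
    rw [← mono_cons]
    exact mono_mem R (Face.cons hρ hx hb hl) (by rw [List.length_cons, hq])
  | zero => rw [mul_zero]; exact Submodule.zero_mem _
  | add x y _ _ hx hy => rw [mul_add]; exact Submodule.add_mem _ hx hy
  | smul c x _ hx => rw [mul_smul_comm]; exact Submodule.smul_mem _ _ hx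

/-- decomposition along a row -/
lemma rowDec [DecidableEq V] [DecidableEq P] [DecidableEq Q] [DecidableEq J] {q : ℕ}
    {S : Finset P} {T : Finset Q} {z : ExteriorAlgebra R (V →₀ R)}
    (hz : z ∈ Ch R B (q + 1) S T) (ρ : P) :
    z - ∑ x ∈ T.filter (fun x => B.bP ρ = B.bQ x), e R (B.vert ρ x) * dv R (B.vert ρ x) z ∈
      Ch R B (q + 1) (S.erase ρ) T := by
  unfold Ch at hz
  induction hz using Submodule.span_induction with
  | mem z hz =>
    obtain ⟨l, hl, hq, rfl⟩ := hz
    by_cases hv : ∃ v ∈ l, B.row v = ρ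
    · obtain ⟨v, hvl, hvρ⟩ := hv
      subst hvρ
      rw [Finset.sum_eq_single (B.col v)]
      · rw [B.hv]
        obtain ⟨c, h1, h2⟩ := mono_erase R v l hvl hl.nodup
        rw [h2, mul_smul_comm, ← h1, sub_self]
        exact Submodule.zero_mem _
      · intro x hx hne
        rw [Finset.mem_filter] at hx
        rw [dv_mono_not_mem, mul_zero]
        intro hmem
        have hne' : B.vert (B.row v) x ≠ v := by
          intro h
          apply hne
          rw [← h, B.hc _ _ hx.2]
        have := (hl.ne_of_ne hmem hvl hne').1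
        exact this (B.hr _ _ hx.2)
      · intro h
        exfalso
        apply h
        rw [Finset.mem_filter]
        exact ⟨(hl.2 v hvl).2, B.h1 v⟩
    · push Not at hv
      rw [Finset.sum_eq_zero, sub_zero]
      · refine mono_mem R ⟨hl.1, fun v hvl => ⟨Finset.mem_erase.2 ⟨hv v hvl, (hl.2 v hvl).1⟩,
          (hl.2 v hvl).2⟩⟩ hq
      · intro x hx
        rw [Finset.mem_filter] at hx
        rw [dv_mono_not_mem, mul_zero]
        intro hmem
        exact hv _ hmem (B.hr _ _ hx.2)
  | zero => simp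
  | add x y _ _ hx hy =>
    have : (x + y) - ∑ i ∈ T.filter (fun x => B.bP ρ = B.bQ x),
        e R (B.vert ρ i) * dv R (B.vert ρ i) (x + y) =
        (x - ∑ i ∈ T.filter (fun x => B.bP ρ = B.bQ x), e R (B.vert ρ i) * dv R (B.vert ρ i) x) +
        (y - ∑ i ∈ T.filter (fun x => B.bP ρ = B.bQ x), e R (B.vert ρ i) * dv R (B.vert ρ i) y) := by
      simp only [map_add, mul_add, Finset.sum_add_distrib]
      abel
    rw [this]
    exact Submodule.add_mem _ hx hy
  | smul c x _ hx =>
    have : (c • x) - ∑ i ∈ T.filter (fun x => B.bP ρ = B.bQ x),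
        e R (B.vert ρ i) * dv R (B.vert ρ i) (c • x) =
        c • (x - ∑ i ∈ T.filter (fun x => B.bP ρ = B.bQ x),
          e R (B.vert ρ i) * dv R (B.vert ρ i) x) := by
      simp only [map_smul, mul_smul_comm, ← Finset.smul_sum, ← smul_sub]
    rw [this]
    exact Submodule.smul_mem _ _ hx

/-- decomposition along a column -/
lemma colDec [DecidableEq V] [DecidableEq P] [DecidableEq Q] [DecidableEq J] {q : ℕ}
    {S : Finset P} {T : Finset Q} {z : ExteriorAlgebra R (V →₀ R)}
    (hz : z ∈ Ch R B (q + 1) S T) (x : Q) :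
    z - ∑ ρ ∈ S.filter (fun ρ => B.bP ρ = B.bQ x), e R (B.vert ρ x) * dv R (B.vert ρ x) z ∈
      Ch R B (q + 1) S (T.erase x) := by
  unfold Ch at hz
  induction hz using Submodule.span_induction with
  | mem z hz =>
    obtain ⟨l, hl, hq, rfl⟩ := hz
    by_cases hv : ∃ v ∈ l, B.col v = x
    · obtain ⟨v, hvl, hvρ⟩ := hv
      subst hvρ
      rw [Finset.sum_eq_single (B.row v)]
      · rw [B.hv]
        obtain ⟨c, h1, h2⟩ := mono_erase R v l hvl hl.nodup
        rw [h2, mul_smul_comm, ← h1, sub_self]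
        exact Submodule.zero_mem _
      · intro ρ hρ hne
        rw [Finset.mem_filter] at hρ
        rw [dv_mono_not_mem, mul_zero]
        intro hmem
        have hne' : B.vert ρ (B.col v) ≠ v := by
          intro h
          apply hne
          rw [← h, B.hr _ _ hρ.2]
        have := (hl.ne_of_ne hmem hvl hne').2
        exact this (B.hc _ _ hρ.2)
      · intro h
        exfalso
        apply h
        rw [Finset.mem_filter]
        exact ⟨(hl.2 v hvl).1, B.h1 v⟩
    · push Not at hv
      rw [Finset.sum_eq_zero, sub_zero]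
      · refine mono_mem R ⟨hl.1, fun v hvl => ⟨(hl.2 v hvl).1,
          Finset.mem_erase.2 ⟨hv v hvl, (hl.2 v hvl).2⟩⟩⟩ hq
      · intro ρ hρ
        rw [Finset.mem_filter] at hρ
        rw [dv_mono_not_mem, mul_zero]
        intro hmem
        exact hv _ hmem (B.hc _ _ hρ.2)
  | zero => simp
  | add y z _ _ hx hy =>
    have : (y + z) - ∑ i ∈ S.filter (fun ρ => B.bP ρ = B.bQ x),
        e R (B.vert i x) * dv R (B.vert i x) (y + z) =
        (y - ∑ i ∈ S.filter (fun ρ => B.bP ρ = B.bQ x), e R (B.vert i x) * dv R (B.vert i x) y) +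
        (z - ∑ i ∈ S.filter (fun ρ => B.bP ρ = B.bQ x), e R (B.vert i x) * dv R (B.vert i x) z) := by
      simp only [map_add, mul_add, Finset.sum_add_distrib]
      abel
    rw [this]
    exact Submodule.add_mem _ hx hy
  | smul c y _ hx =>
    have : (c • y) - ∑ i ∈ S.filter (fun ρ => B.bP ρ = B.bQ x),
        e R (B.vert i x) * dv R (B.vert i x) (c • y) =
        c • (y - ∑ i ∈ S.filter (fun ρ => B.bP ρ = B.bQ x),
          e R (B.vert i x) * dv R (B.vert i x) y) := by
      simp only [map_smul, mul_smul_comm, ← Finset.smul_sum, ← smul_sub]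
    rw [this]
    exact Submodule.smul_mem _ _ hx

end Pool.Agent.Helper612.TV
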