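import Mathlib
import Pool.Agent.Helper612_TV.Ext

/-!
# Acyclicity of joins of chessboards
-/

set_option autoImplicit false

namespace Pool.Agent.Helper612.TV

variable (R : Type*) [CommRing R] {V P Q J : Type*} [DecidableEq V] [DecidableEq P]
  [DecidableEq Q] [DecidableEq J] (B : Board V P Q J)

/-- sums of cycles, each avoiding a column of block `j` -/
noncomputable def U (q : ℕ) (S : Finset P) (T : Finset Q) (j : J) :
    Submodule R (ExteriorAlgebra R (V →₀ R)) :=
  ⨆ x ∈ T.filter (fun x => B.bQ x = j), (Ch R B q S (T.erase x) ⊓ LinearMap.ker (bd R))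

variable {B}

lemma le_U {q : ℕ} {S : Finset P} {T : Finset Q} {j : J} {x : Q} (hx : x ∈ T) (hj : B.bQ x = j) :
    Ch R B q S (T.erase x) ⊓ LinearMap.ker (bd R) ≤ U R B q S T j :=
  le_iSup₂_of_le x (Finset.mem_filter.2 ⟨hx, hj⟩) le_rfl

lemma U_le_ker {q : ℕ} {S : Finset P} {T : Finset Q} {j : J} :
    U R B q S T j ≤ LinearMap.ker (bd R) :=
  iSup₂_le fun _ _ => inf_le_right

lemma splitCycle (n : ℕ) : ∀ (q : ℕ) (S : Finset P) (T : Finset Q) (j : J),
    (S.filter (fun ρ => B.bP ρ = j)).card = n →
    2 * n + 1 ≤ (T.filter (fun x => B.bQ x = j)).card →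
    ∀ z ∈ Ch R B q S T, bd R z = 0 → z ∈ U R B q S T j := by
  induction n with
  | zero =>
    intro q S T j hS hT z hz hbd
    obtain ⟨x, hx⟩ := Finset.card_pos.1 (show 0 < (T.filter (fun x => B.bQ x = j)).card by omega)
    rw [Finset.mem_filter] at hx
    refine le_U R hx.1 hx.2 ⟨?_, hbd⟩
    have hsub : Ch R B q S T ≤ Ch R B q S (T.erase x) := by
      refine Submodule.span_mono ?_
      rintro z ⟨l, hl, hq, rfl⟩
      refine ⟨l, ⟨hl.1, fun v hv => ⟨(hl.2 v hv).1, Finset.mem_erase.2 ⟨?_, (hl.2 v hv).2⟩⟩⟩, hq, rfl⟩
      intro hcol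
      have h1 : B.row v ∈ S.filter (fun ρ => B.bP ρ = j) := by
        rw [Finset.mem_filter]
        exact ⟨(hl.2 v hv).1, by rw [B.h1, hcol, hx.2]⟩
      rw [Finset.card_eq_zero] at hS
      rw [hS] at h1
      simp at h1
    exact hsub hz
  | succ n ih =>
    intro q S T j hS hT z hz hbd
    obtain ⟨x0, hx0⟩ := Finset.card_pos.1 (show 0 < (T.filter (fun x => B.bQ x = j)).card by omega)
    rw [Finset.mem_filter] at hx0
    cases q with
    | zero =>
      refine le_U R hx0.1 hx0.2 ⟨?_, hbd⟩
      have hsub : Ch R B 0 S T ≤ Ch R B 0 S (T.erase x0) := by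
        refine Submodule.span_mono ?_
        rintro z ⟨l, hl, hq, rfl⟩
        have hnil : l = [] := List.length_eq_zero_iff.1 hq
        subst hnil
        exact ⟨[], ⟨List.Pairwise.nil, by simp⟩, rfl, rfl⟩
      exact hsub hz
    | succ q =>
      -- cards of filters after erasing
      have cS : ∀ ρ ∈ S.filter (fun ρ => B.bP ρ = j),
          ((S.erase ρ).filter (fun ρ => B.bP ρ = j)).card = n := by
        intro ρ hρ
        rw [Finset.filter_erase, Finset.card_erase_of_mem hρ, hS]; rfl
      have cT : ∀ (T' : Finset Q) (x : Q),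
          (T'.filter (fun x => B.bQ x = j)).card ≤
            ((T'.erase x).filter (fun x => B.bQ x = j)).card + 1 := by
        intro T' x
        rw [Finset.filter_erase]
        have := Finset.pred_card_le_card_erase (s := T'.filter (fun x => B.bQ x = j)) (a := x)
        omega
      have key : ∀ ρ ∈ S.filter (fun ρ => B.bP ρ = j), ∀ y ∈ Ch R B q (S.erase ρ) (T.erase x0),
          bd R y = 0 →
          e R (B.vert ρ x0) * y ∈ U R B (q + 1) S T j ⊔ Ch R B (q + 1) S (T.erase x0) := by
        intro ρ hρ y hy hby
        have hρS := (Finset.mem_filter.1 hρ).1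
        have hρj := (Finset.mem_filter.1 hρ).2
        have hyU : y ∈ U R B q (S.erase ρ) (T.erase x0) j := by
          refine ih q _ _ j (cS ρ hρ) ?_ y hy hby
          have := cT T x0
          omega
        have hle : U R B q (S.erase ρ) (T.erase x0) j ≤
            (U R B (q + 1) S T j ⊔ Ch R B (q + 1) S (T.erase x0)).comap
              (LinearMap.mulLeft R (e R (B.vert ρ x0))) := by
          refine iSup₂_le fun x1 hx1 => ?_
          rw [Finset.mem_filter] at hx1
          rintro y1 ⟨hy1, hby1⟩
          rw [SetLike.mem_coe, LinearMap.mem_ker] at hby1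
          rw [SetLike.mem_coe] at hy1
          rw [Submodule.mem_comap, LinearMap.mulLeft_apply]
          have hdec : e R (B.vert ρ x0) * y1 =
              (e R (B.vert ρ x0) - e R (B.vert ρ x1)) * y1 + e R (B.vert ρ x1) * y1 := by
            rw [sub_mul]; abel
          rw [hdec]
          refine Submodule.add_mem_sup ?_ ?_
          · have hy1U : y1 ∈ U R B q (S.erase ρ) ((T.erase x0).erase x1) j := by
              refine ih q _ _ j (cS ρ hρ) ?_ y1 hy1 hby1
              have h1 := cT T x0
              have h2 := cT (T.erase x0) x1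
              omega
            have hle2 : U R B q (S.erase ρ) ((T.erase x0).erase x1) j ≤
                (U R B (q + 1) S T j).comap
                  (LinearMap.mulLeft R (e R (B.vert ρ x0) - e R (B.vert ρ x1))) := by
              refine iSup₂_le fun x2 hx2 => ?_
              rw [Finset.mem_filter, Finset.mem_erase, Finset.mem_erase] at hx2
              rintro y2 ⟨hy2, hby2⟩
              rw [SetLike.mem_coe, LinearMap.mem_ker] at hby2
              rw [SetLike.mem_coe] at hy2
              rw [Submodule.mem_comap, LinearMap.mulLeft_apply]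
              refine le_U R hx2.1.2.2 hx2.2 ⟨?_, ?_⟩
              · rw [SetLike.mem_coe, sub_mul]
                refine Submodule.sub_mem _ ?_ ?_
                · refine e_mul_mem R hρS (Finset.mem_erase.2 ⟨hx2.1.2.1.symm, hx0.1⟩)
                    (by rw [hρj, hx0.2]) (Ch_mono R q (Finset.Subset.refl _) ?_ hy2)
                  intro a ha
                  simp only [Finset.mem_erase] at ha ⊢
                  tauto
                · refine e_mul_mem R hρS (Finset.mem_erase.2 ⟨hx2.1.1.symm,
                    (Finset.mem_erase.1 hx1.1).2⟩)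
                    (by rw [hρj, hx1.2]) (Ch_mono R q (Finset.Subset.refl _) ?_ hy2)
                  intro a ha
                  simp only [Finset.mem_erase] at ha ⊢
                  tauto
              · rw [SetLike.mem_coe, LinearMap.mem_ker, sub_mul, map_sub, bd_e_mul, bd_e_mul, hby2]
                simp
            exact hle2 hy1U
          · exact e_mul_mem R hρS hx1.1 (by rw [hρj, hx1.2]) hy1
        exact hle hyU
      have hz1 : z ∈ U R B (q + 1) S T j ⊔ Ch R B (q + 1) S (T.erase x0) := by
        have hdec := colDec R (B := B) hz x0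
        have hsum : ∑ ρ ∈ S.filter (fun ρ => B.bP ρ = B.bQ x0),
            e R (B.vert ρ x0) * dv R (B.vert ρ x0) z ∈
            U R B (q + 1) S T j ⊔ Ch R B (q + 1) S (T.erase x0) := by
          refine Submodule.sum_mem _ fun ρ hρ => ?_
          rw [hx0.2] at hρ
          have hρj := (Finset.mem_filter.1 hρ).2
          refine key ρ hρ _ ?_ ?_
          · have := dv_mem R hz (B.vert ρ x0)
            rwa [B.hr _ _ (by rw [hρj, hx0.2]), B.hc _ _ (by rw [hρj, hx0.2])] at this
          · rw [bd_dv, hbd, map_zero, neg_zero]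
        have : z = ∑ ρ ∈ S.filter (fun ρ => B.bP ρ = B.bQ x0),
            e R (B.vert ρ x0) * dv R (B.vert ρ x0) z +
            (z - ∑ ρ ∈ S.filter (fun ρ => B.bP ρ = B.bQ x0),
            e R (B.vert ρ x0) * dv R (B.vert ρ x0) z) := by abel
        rw [this]
        exact Submodule.add_mem _ hsum (Submodule.mem_sup_right hdec)
      obtain ⟨a, ha, b, hb, hab⟩ := Submodule.mem_sup.1 hz1
      have hba : bd R a = 0 := U_le_ker R ha
      have hbb : bd R b = 0 := by
        have : bd R (a + b) = 0 := by rw [hab]; exact hbd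
        rwa [map_add, hba, zero_add] at this
      rw [← hab]
      exact Submodule.add_mem _ ha (le_U R hx0.1 hx0.2 ⟨hb, hbb⟩)

theorem acyclic (n : ℕ) : ∀ (q : ℕ) (S : Finset P) (T : Finset Q), S.card = n → q < n →
    (∀ ρ ∈ S, 2 * (S.filter (fun ρ' => B.bP ρ' = B.bP ρ)).card ≤
      (T.filter (fun x => B.bQ x = B.bP ρ)).card + 1) →
    ∀ z ∈ Ch R B q S T, bd R z = 0 → ∃ w ∈ Ch R B (q + 1) S T, bd R w = z := by
  induction n with
  | zero => intro q S T _ hq; omega
  | succ n ih =>
    intro q S T hS hq H z hz hbd
    obtain ⟨ρ, hρ⟩ := Finset.card_pos.1 (show 0 < S.card by omega)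
    set j := B.bP ρ with hj
    have hρj : ρ ∈ S.filter (fun ρ' => B.bP ρ' = j) := Finset.mem_filter.2 ⟨hρ, rfl⟩
    have hs1 : 1 ≤ (S.filter (fun ρ' => B.bP ρ' = j)).card := Finset.card_pos.2 ⟨ρ, hρj⟩
    have hH := H ρ hρ
    rw [← hj] at hH
    obtain ⟨x, hx⟩ := Finset.card_pos.1 (show 0 < (T.filter (fun x => B.bQ x = j)).card by omega)
    rw [Finset.mem_filter] at hx
    cases q with
    | zero =>
      have : ∃ c : R, z = c • (1 : ExteriorAlgebra R (V →₀ R)) := by
        unfold Ch at hz
        induction hz using Submodule.span_induction with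
        | mem z hz =>
          obtain ⟨l, _, hq, rfl⟩ := hz
          have hnil : l = [] := List.length_eq_zero_iff.1 hq
          subst hnil
          exact ⟨1, by rw [mono_nil, one_smul]⟩
        | zero => exact ⟨0, by simp⟩
        | add x y hx' hy' hx hy =>
          have hx2 := Submodule.span_induction (p := fun z _ => bd R z = 0)
            (by
              rintro z ⟨l, _, hq, rfl⟩
              have hnil : l = [] := List.length_eq_zero_iff.1 hq
              subst hnil
              rw [mono_nil, bd_one]) (by simp) (fun x y _ _ hx hy => by rw [map_add, hx, hy, add_zero])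
              (fun c x _ hx => by rw [map_smul, hx, smul_zero]) hx'
          have hy2 : bd R y = 0 := by rwa [map_add, hx2, zero_add] at hbd
          obtain ⟨c, hc⟩ := hx hx2
          obtain ⟨c', hc'⟩ := hy hy2
          exact ⟨c + c', by rw [hc, hc', add_smul]⟩
        | smul c x hx' hx =>
          have hx2 := Submodule.span_induction (p := fun z _ => bd R z = 0)
            (by
              rintro z ⟨l, _, hq, rfl⟩
              have hnil : l = [] := List.length_eq_zero_iff.1 hq
              subst hnil
              rw [mono_nil, bd_one]) (by simp) (fun x y _ _ hx hy => by rw [map_add, hx, hy, add_zero])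
              (fun c x _ hx => by rw [map_smul, hx, smul_zero]) hx'
          obtain ⟨c', hc'⟩ := hx hx2
          exact ⟨c * c', by rw [hc', smul_smul]⟩
      obtain ⟨c, rfl⟩ := this
      refine ⟨c • (e R (B.vert ρ x) * 1), Submodule.smul_mem _ _
        (e_mul_mem R hρ hx.1 (by rw [hx.2]) (one_mem R _ _)), ?_⟩
      rw [map_smul, bd_e_mul, bd_one, mul_zero, sub_zero]
    | succ q =>
      have hbx : ∀ x ∈ T.filter (fun x => B.bP ρ = B.bQ x), B.bP ρ = B.bQ x := fun x hx =>
        (Finset.mem_filter.1 hx).2
      have hfill : ∀ x, x ∈ T.filter (fun x => B.bP ρ = B.bQ x) →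
          ∃ w ∈ Ch R B (q + 1) (S.erase ρ) (T.erase x), bd R w = dv R (B.vert ρ x) z := by
        intro x hx
        have hxT := (Finset.mem_filter.1 hx).1
        have hxb := hbx x hx
        refine ih q (S.erase ρ) (T.erase x) ?_ (by omega) ?_ _ ?_ ?_
        · rw [Finset.card_erase_of_mem hρ, hS]; rfl
        · intro ρ' hρ'
          have hρ'S := Finset.mem_of_mem_erase hρ'
          have hH' := H ρ' hρ'S
          rw [Finset.filter_erase, Finset.filter_erase]
          by_cases hb : B.bP ρ' = j
          · rw [hb]
            have h1 : ρ ∈ S.filter (fun ρ'' => B.bP ρ'' = j) := hρj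
            have h2 : x ∈ T.filter (fun x => B.bQ x = j) :=
              Finset.mem_filter.2 ⟨hxT, by rw [← hxb]⟩
            rw [Finset.card_erase_of_mem h1, Finset.card_erase_of_mem h2]
            have h3 : 1 ≤ (T.filter (fun x => B.bQ x = j)).card := Finset.card_pos.2 ⟨x, h2⟩
            omega
          · have h1 : ρ ∉ S.filter (fun ρ'' => B.bP ρ'' = B.bP ρ') := by
              rw [Finset.mem_filter]
              rintro ⟨_, h⟩
              exact hb h.symm
            have h2 : x ∉ T.filter (fun x => B.bQ x = B.bP ρ') := by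
              rw [Finset.mem_filter]
              rintro ⟨_, h⟩
              exact hb (by rw [← h, ← hxb])
            rw [Finset.erase_eq_of_notMem h1, Finset.erase_eq_of_notMem h2]
            exact hH'
        · have := dv_mem R hz (B.vert ρ x)
          rwa [B.hr _ _ hxb, B.hc _ _ hxb] at this
        · rw [bd_dv, hbd, map_zero, neg_zero]
      choose! w hw hbw using hfill
      set F := T.filter (fun x => B.bP ρ = B.bQ x) with hF
      set W := ∑ x ∈ F, e R (B.vert ρ x) * w x with hW
      have hWmem : W ∈ Ch R B (q + 1 + 1) S T := by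
        refine Submodule.sum_mem _ fun x hx => ?_
        exact e_mul_mem R hρ (Finset.mem_filter.1 hx).1 (hbx x hx) (hw x hx)
      have hbW : bd R W = ∑ x ∈ F, w x - ∑ x ∈ F, e R (B.vert ρ x) * dv R (B.vert ρ x) z := by
        rw [hW, map_sum, ← Finset.sum_sub_distrib]
        refine Finset.sum_congr rfl fun x hx => ?_
        rw [bd_e_mul, hbw x hx]
      set z' := z + bd R W with hz'
      have hz'mem : z' ∈ Ch R B (q + 1) (S.erase ρ) T := by
        have h1 := rowDec R (B := B) hz ρ
        rw [← hF] at h1
        have h2 : ∑ x ∈ F, w x ∈ Ch R B (q + 1) (S.erase ρ) T := by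
          refine Submodule.sum_mem _ fun x hx => ?_
          exact Ch_mono R _ (Finset.Subset.refl _) (Finset.erase_subset _ _) (hw x hx)
        have h3 : z' = (z - ∑ x ∈ F, e R (B.vert ρ x) * dv R (B.vert ρ x) z) + ∑ x ∈ F, w x := by
          rw [hz', hbW]; abel
        rw [h3]
        exact Submodule.add_mem _ h1 h2
      have hbz' : bd R z' = 0 := by rw [hz', map_add, hbd, bd_bd, add_zero]
      have hU : z' ∈ U R B (q + 1) (S.erase ρ) T j := by
        refine splitCycle R ((S.filter (fun ρ' => B.bP ρ' = j)).card - 1) (q + 1) _ _ j ?_ ?_ z'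
          hz'mem hbz'
        · rw [Finset.filter_erase, Finset.card_erase_of_mem hρj]
        · omega
      have hle : U R B (q + 1) (S.erase ρ) T j ≤ (Ch R B (q + 1 + 1) S T).map (bd R) := by
        refine iSup₂_le fun x1 hx1 => ?_
        rw [Finset.mem_filter] at hx1
        rintro y ⟨hy, hby⟩
        rw [SetLike.mem_coe, LinearMap.mem_ker] at hby
        rw [SetLike.mem_coe] at hy
        refine ⟨e R (B.vert ρ x1) * y, e_mul_mem R hρ hx1.1 (by rw [hx1.2]) hy, ?_⟩
        rw [bd_e_mul, hby, mul_zero, sub_zero]
      obtain ⟨w', hw', hbw'⟩ := hle hU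
      refine ⟨w' - W, Submodule.sub_mem _ hw' hWmem, ?_⟩
      rw [map_sub, hbw', hz']
      abel

end Pool.Agent.Helper612.TV
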