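import Mathlib
import Pool.Agent.Helper612_TV.Ext

/-!
# Linear functionals on the exterior algebra from alternating functions of vertex tuples
-/

set_option autoImplicit false

namespace Pool.Agent.Helper612.TV

variable (R : Type*) [CommRing R] {V : Type*}

lemma mono_ofFn {k : ℕ} (s : Fin k → V) :
    mono R (List.ofFn s) = ExteriorAlgebra.ιMulti R k (fun i => Finsupp.single (s i) (1 : R)) := by
  rw [ExteriorAlgebra.ιMulti_apply, mono, List.map_ofFn]
  rfl

lemma bd_ofFn (k : ℕ) : ∀ (s : Fin (k + 1) → V), bd R (mono R (List.ofFn s)) =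
    ∑ i : Fin (k + 1), ((-1 : R) ^ (i : ℕ)) • mono R (List.ofFn (s ∘ i.succAbove)) := by
  induction k with
  | zero =>
    intro s
    rw [List.ofFn_succ, List.ofFn_zero, mono_cons, mono_nil, bd_e_mul, bd_one]
    simp [mono_nil]
  | succ k ih =>
    intro s
    rw [List.ofFn_succ, mono_cons, bd_e_mul, ih, Fin.sum_univ_succ (n := k + 1)]
    have h0 : s ∘ (0 : Fin (k + 2)).succAbove = fun i => s i.succ := by
      funext i; simp
    rw [h0, Fin.val_zero, pow_zero, one_smul, Finset.mul_sum, sub_eq_add_neg,
      ← Finset.sum_neg_distrib]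
    congr 1
    refine Finset.sum_congr rfl fun i _ => ?_
    have h1 : List.ofFn (s ∘ i.succ.succAbove) =
        s 0 :: List.ofFn ((fun i => s i.succ) ∘ i.succAbove) := by
      rw [List.ofFn_succ]
      have h2 : (fun j => (s ∘ i.succ.succAbove) (Fin.succ j)) =
          (fun i => s i.succ) ∘ i.succAbove := by
        funext j
        simp [Fin.succ_succAbove_succ]
      rw [h2]
      simp
    rw [h1, mono_cons, mul_smul_comm, ← neg_smul, Fin.val_succ, pow_succ]
    congr 1
    ring

variable [Fintype V] [DecidableEq V]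

/-- multilinear extension of a function of vertex tuples -/
noncomputable def mlin (M : ℕ) (F : (Fin M → V) → R) :
    MultilinearMap R (fun _ : Fin M => V →₀ R) R :=
  ∑ s : Fin M → V, F s •
    (MultilinearMap.mkPiAlgebra R (Fin M) R).compLinearMap (fun i => Finsupp.lapply (s i))

lemma mlin_apply (M : ℕ) (F : (Fin M → V) → R) (x : Fin M → V →₀ R) :
    mlin R M F x = ∑ s : Fin M → V, F s * ∏ i, x i (s i) := by
  simp [mlin]

/-- alternating extension -/
noncomputable def alt (M : ℕ) (F : (Fin M → V) → R)
    (hF : ∀ (s : Fin M → V) (i j : Fin M), i ≠ j → F (s ∘ Equiv.swap i j) = - F s)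
    (hF' : ∀ (s : Fin M → V) (i j : Fin M), i ≠ j → s i = s j → F s = 0) :
    (V →₀ R) [⋀^Fin M]→ₗ[R] R :=
  { mlin R M F with
    map_eq_zero_of_eq' := by
      intro x i j hx hij
      show mlin R M F x = 0
      rw [mlin_apply]
      refine Finset.sum_involution (fun s _ => s ∘ Equiv.swap i j) ?_ ?_ ?_ ?_
      · intro s _
        rw [hF s i j hij]
        have : ∏ k, x k ((s ∘ Equiv.swap i j) k) = ∏ k, x k (s k) := by
          rw [← Equiv.prod_comp (Equiv.swap i j) (fun k => x k (s k))]
          refine Finset.prod_congr rfl fun k _ => ?_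
          have hk : x (Equiv.swap i j k) = x k := by
            by_cases h1 : k = i
            · rw [h1, Equiv.swap_apply_left, hx]
            · by_cases h2 : k = j
              · rw [h2, Equiv.swap_apply_right, hx]
              · rw [Equiv.swap_apply_of_ne_of_ne h1 h2]
          rw [hk]; rfl
        rw [this]; ring
      · intro s _ hne heq
        apply hne
        have h1 : s i = s j := by
          have := congrFun heq i
          simp only [Function.comp_apply, Equiv.swap_apply_left] at this
          exact this.symm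
        rw [hF' s i j hij h1, zero_mul]
      · intro s _; exact Finset.mem_univ _
      · intro s _
        funext k
        simp }

/-- the linear functional on the exterior algebra -/
noncomputable def fn (M : ℕ) (F : (Fin M → V) → R)
    (hF : ∀ (s : Fin M → V) (i j : Fin M), i ≠ j → F (s ∘ Equiv.swap i j) = - F s)
    (hF' : ∀ (s : Fin M → V) (i j : Fin M), i ≠ j → s i = s j → F s = 0) :
    ExteriorAlgebra R (V →₀ R) →ₗ[R] R :=
  ExteriorAlgebra.liftAlternating (Pi.single M (alt R M F hF hF'))

lemma fn_ofFn (M : ℕ) (F : (Fin M → V) → R)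
    (hF : ∀ (s : Fin M → V) (i j : Fin M), i ≠ j → F (s ∘ Equiv.swap i j) = - F s)
    (hF' : ∀ (s : Fin M → V) (i j : Fin M), i ≠ j → s i = s j → F s = 0) (s : Fin M → V) :
    fn R M F hF hF' (mono R (List.ofFn s)) = F s := by
  rw [fn, mono_ofFn, ExteriorAlgebra.liftAlternating_apply_ιMulti, Pi.single_eq_same]
  show mlin R M F _ = _
  rw [mlin_apply, Finset.sum_eq_single s]
  · simp
  · intro s' _ hne
    obtain ⟨i, hi⟩ := Function.ne_iff.1 hne
    rw [Finset.prod_eq_zero (Finset.mem_univ i), mul_zero]
    rw [Finsupp.single_apply, if_neg (fun h => hi h.symm)]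
  · intro h; exact absurd (Finset.mem_univ _) h

lemma fn_ne (M : ℕ) (F : (Fin M → V) → R)
    (hF : ∀ (s : Fin M → V) (i j : Fin M), i ≠ j → F (s ∘ Equiv.swap i j) = - F s)
    (hF' : ∀ (s : Fin M → V) (i j : Fin M), i ≠ j → s i = s j → F s = 0) (l : List V)
    (hl : l.length ≠ M) :
    fn R M F hF hF' (mono R l) = 0 := by
  have h1 : l = List.ofFn l.get := (List.ofFn_get l).symm
  rw [fn, h1, mono_ofFn, ExteriorAlgebra.liftAlternating_apply_ιMulti,
    Pi.single_eq_of_ne hl]
  rfl

end Pool.Agent.Helper612.TV
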