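import Mathlib

/-!
# Signed cone indicators and the interval lemma
-/

set_option autoImplicit false

namespace Pool.Agent.Helper612.TV

open Module

/-- combinatorial core of the interval lemma -/
lemma interval_sum {ι : Type*} [Fintype ι] [Nonempty ι] (t D : ι → ℝ)
    (ht : Function.Injective t) (hD : ∀ i, D i ≠ 0) (c : ι → ℤ)
    (hc1 : ∀ i, (∀ j, j ≠ i → 0 < D j * (t i - t j)) → c i = (SignType.sign (D i) : ℤ))
    (hc0 : ∀ i, (¬ ∀ j, j ≠ i → 0 < D j * (t i - t j)) → c i = 0) :
    ((∀ i, 0 < D i) → ∑ i, c i = 1) ∧ ((∀ i, D i < 0) → ∑ i, c i = -1) ∧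
      ((∃ i, 0 < D i) → (∃ i, D i < 0) → ∑ i, c i = 0) := by
  classical
  refine ⟨fun h => ?_, fun h => ?_, fun hp hn => ?_⟩
  · obtain ⟨a, -, ha⟩ := Finset.exists_max_image Finset.univ t Finset.univ_nonempty
    rw [Finset.sum_eq_single a]
    · rw [hc1 a, sign_pos (h a)]; rfl
      intro j hj
      have h1 : t j < t a := lt_of_le_of_ne (ha j (Finset.mem_univ _)) (fun h => hj (ht h))
      exact mul_pos (h j) (by linarith)
    · intro i _ hi
      refine hc0 i (fun hall => ?_)
      have h1 := hall a (Ne.symm hi)
      have h2 := ha i (Finset.mem_univ _)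
      have h3 := h a
      nlinarith
    · intro hh; exact absurd (Finset.mem_univ _) hh
  · obtain ⟨a, -, ha⟩ := Finset.exists_min_image Finset.univ t Finset.univ_nonempty
    rw [Finset.sum_eq_single a]
    · rw [hc1 a, sign_neg (h a)]; rfl
      intro j hj
      have h1 : t a < t j := lt_of_le_of_ne (ha j (Finset.mem_univ _)) (fun h => hj (ht h.symm))
      exact mul_pos_of_neg_of_neg (h j) (by linarith)
    · intro i _ hi
      refine hc0 i (fun hall => ?_)
      have h1 := hall a (Ne.symm hi)
      have h2 := ha i (Finset.mem_univ _)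
      have h3 := h a
      nlinarith
    · intro hh; exact absurd (Finset.mem_univ _) hh
  · obtain ⟨p, hp⟩ := hp
    obtain ⟨n, hn⟩ := hn
    obtain ⟨a, ha1, ha⟩ := Finset.exists_max_image (Finset.univ.filter (fun i => 0 < D i)) t
      ⟨p, by simp [hp]⟩
    obtain ⟨b, hb1, hb⟩ := Finset.exists_min_image (Finset.univ.filter (fun i => D i < 0)) t
      ⟨n, by simp [hn]⟩
    simp only [Finset.mem_filter, Finset.mem_univ, true_and] at ha1 ha hb1 hb
    have hab : a ≠ b := by
      rintro rfl; linarith
    have hcase : ∀ i, 0 < D i ∨ D i < 0 := fun i => (lt_or_gt_of_ne (hD i)).symm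
    rw [Finset.sum_eq_add a b hab]
    · by_cases hlt : t a < t b
      · have h1 : c a = 1 := by
          rw [hc1 a, sign_pos ha1]; rfl
          intro j hj
          rcases hcase j with h | h
          · have h1 : t j < t a := lt_of_le_of_ne (ha j h) (fun h => hj (ht h))
            exact mul_pos h (by linarith)
          · have := hb j h
            exact mul_pos_of_neg_of_neg h (by linarith)
        have h2 : c b = -1 := by
          rw [hc1 b, sign_neg hb1]; rfl
          intro j hj
          rcases hcase j with h | h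
          · have := ha j h
            exact mul_pos h (by linarith)
          · have h1 : t b < t j := lt_of_le_of_ne (hb j h) (fun h => hj (ht h.symm))
            exact mul_pos_of_neg_of_neg h (by linarith)
        rw [h1, h2]; norm_num
      · have h1 : c a = 0 := by
          refine hc0 a (fun hall => ?_)
          have := hall b hab.symm
          nlinarith
        have h2 : c b = 0 := by
          refine hc0 b (fun hall => ?_)
          have := hall a hab
          nlinarith
        rw [h1, h2]; norm_num
    · rintro i - ⟨hia, hib⟩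
      refine hc0 i (fun hall => ?_)
      rcases hcase i with h | h
      · have h1 := hall a (Ne.symm hia)
        have h2 := ha i h
        nlinarith
      · have h1 := hall b (Ne.symm hib)
        have h2 := hb i h
        nlinarith
    · intro hh; exact absurd (Finset.mem_univ _) hh
    · intro hh; exact absurd (Finset.mem_univ _) hh

variable {M : ℕ} {W : Type*} [AddCommGroup W] [Module ℝ W] (b : Basis (Fin M) ℝ W)

open Classical in
/-- signed indicator of the open cone spanned by `w` at `u` -/
noncomputable def chi (u : W) (w : Fin M → W) : ℤ :=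
  if ∃ x : Fin M → ℝ, (∀ i, 0 < x i) ∧ ∑ i, x i • w i = u then (SignType.sign (b.det w) : ℤ) else 0

lemma chi_swap (u : W) (w : Fin M → W) {i j : Fin M} (hij : i ≠ j) :
    chi b u (w ∘ Equiv.swap i j) = - chi b u w := by
  unfold chi
  have h1 : (∃ x : Fin M → ℝ, (∀ i, 0 < x i) ∧ ∑ k, x k • (w ∘ Equiv.swap i j) k = u) ↔
      (∃ x : Fin M → ℝ, (∀ i, 0 < x i) ∧ ∑ i, x i • w i = u) := by
    constructor
    · rintro ⟨x, hx, hu⟩
      refine ⟨x ∘ Equiv.swap i j, fun k => hx _, ?_⟩
      rw [← hu, ← Equiv.sum_comp (Equiv.swap i j)]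
      refine Finset.sum_congr rfl fun k _ => ?_
      simp
    · rintro ⟨x, hx, hu⟩
      refine ⟨x ∘ Equiv.swap i j, fun k => hx _, ?_⟩
      rw [← hu, ← Equiv.sum_comp (Equiv.swap i j) (fun k => x k • w k)]
      refine Finset.sum_congr rfl fun k _ => ?_
      simp
  by_cases h : ∃ x : Fin M → ℝ, (∀ i, 0 < x i) ∧ ∑ i, x i • w i = u
  · rw [if_pos h, if_pos (h1.2 h), b.det.map_swap w hij, Left.sign_neg]
    cases (SignType.sign (b.det w)) <;> rfl
  · rw [if_neg h, if_neg (fun h' => h (h1.1 h')), neg_zero]

lemma chi_eq_zero_of_eq (u : W) (w : Fin M → W) {i j : Fin M} (hij : i ≠ j) (h : w i = w j) :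
    chi b u w = 0 := by
  unfold chi
  rw [b.det.map_eq_zero_of_eq w h hij]
  simp

/-- signed minors of a family with one more vector -/
noncomputable def minor (w : Fin (M + 1) → W) (i : Fin (M + 1)) : ℝ :=
  (-1) ^ (i : ℕ) * b.det (w ∘ i.succAbove)

lemma minor_relation (w : Fin (M + 1) → W) : ∑ i, minor b w i • w i = 0 := by
  rw [← b.repr.map_eq_zero_iff]
  ext k
  simp only [map_sum, map_smul, Finsupp.coe_finsetSum, Finset.sum_apply, Finsupp.coe_smul,
    Pi.smul_apply, smul_eq_mul, Finsupp.coe_zero, Pi.zero_apply]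
  let A : Matrix (Fin (M + 1)) (Fin (M + 1)) ℝ :=
    Matrix.of fun i => Fin.cons (b.repr (w i) k) (fun j => b.repr (w i) j)
  have h0 : A.det = 0 := by
    refine Matrix.det_zero_of_column_eq (i := 0) (j := k.succ) (Fin.succ_ne_zero k).symm ?_
    intro i
    simp [A]
  rw [Matrix.det_succ_column_zero] at h0
  rw [← h0]
  refine Finset.sum_congr rfl fun i _ => ?_
  have h1 : (A.submatrix i.succAbove Fin.succ).det = b.det (w ∘ i.succAbove) := by
    rw [Basis.det_apply, ← Matrix.det_transpose]
    congr 1
  rw [h1, minor]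
  simp only [A, Matrix.of_apply, Fin.cons_zero]
  ring

/-- the intrinsic sign of a family of `M + 1` vectors -/
noncomputable def kap (w : Fin (M + 1) → W) : ℤ :=
  open Classical in
  if ∀ i, 0 < minor b w i then 1 else if ∀ i, minor b w i < 0 then -1 else 0

lemma li_of_det {w : Fin M → W} (h : b.det w ≠ 0) :
    LinearIndependent ℝ w ∧ Submodule.span ℝ (Set.range w) = ⊤ :=
  (b.is_basis_iff_det (v := w)).2 (isUnit_iff_ne_zero.2 h)

theorem interval_lemma (u : W) (w : Fin (M + 1) → W) (hw : ∀ i : Fin (M + 1), b.det (w ∘ i.succAbove) ≠ 0)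
    (hu : ∀ i j, i ≠ j → u ∉ Submodule.span ℝ (w '' {k | k ≠ i ∧ k ≠ j})) :
    ∑ i : Fin (M + 1), (-1 : ℤ) ^ (i : ℕ) * chi b u (w ∘ i.succAbove) = kap b w := by
  classical
  set D := minor b w with hDdef
  have hD : ∀ i, D i ≠ 0 := by
    intro i
    rw [hDdef, minor]
    exact mul_ne_zero (pow_ne_zero _ (by norm_num)) (hw i)
  have hrel : ∑ i, D i • w i = 0 := minor_relation b w
  -- a particular solution
  obtain ⟨x0, hx0⟩ : ∃ x0 : Fin (M + 1) → ℝ, ∑ i, x0 i • w i = u := by
    have h1 := (li_of_det b (hw 0)).2
    have h2 : u ∈ Submodule.span ℝ (Set.range w) := by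
      have : Submodule.span ℝ (Set.range (w ∘ (0 : Fin (M + 1)).succAbove)) ≤
          Submodule.span ℝ (Set.range w) :=
        Submodule.span_mono (Set.range_comp_subset_range _ _)
      rw [h1] at this
      exact this trivial
    exact (Submodule.mem_span_range_iff_exists_fun ℝ).1 h2
  -- uniqueness up to the relation
  have huniq : ∀ x : Fin (M + 1) → ℝ, ∑ i, x i • w i = 0 → ∃ t : ℝ, ∀ i, x i = t * D i := by
    intro x hx
    refine ⟨x 0 / D 0, ?_⟩
    set y : Fin (M + 1) → ℝ := fun i => x i - (x 0 / D 0) * D i with hy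
    have hy0 : y 0 = 0 := by
      rw [hy]; simp only; rw [div_mul_cancel₀ _ (hD 0), sub_self]
    have hysum : ∑ i, y i • w i = 0 := by
      simp only [hy, sub_smul, mul_smul, Finset.sum_sub_distrib, ← Finset.smul_sum, hx, hrel,
        smul_zero, sub_self]
    rw [Fin.sum_univ_succ, hy0, zero_smul, zero_add] at hysum
    have hli := (li_of_det b (hw 0)).1
    have h3 := Fintype.linearIndependent_iff.1 hli (fun j => y j.succ) (by
      rw [← hysum]
      refine Finset.sum_congr rfl fun j _ => ?_
      simp)
    intro i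
    have : y i = 0 := by
      refine Fin.cases hy0 (fun j => h3 j) i
    rw [hy] at this
    simp only at this
    linarith
  set t : Fin (M + 1) → ℝ := fun i => - x0 i / D i with ht
  have hxt : ∀ i j, x0 j + t i * D j = D j * (t i - t j) := by
    intro i j
    have := hD j
    simp only [ht]
    field_simp
    ring
  have hxsum : ∀ s : ℝ, ∑ i, (x0 i + s * D i) • w i = u := by
    intro s
    simp only [add_smul, mul_smul, Finset.sum_add_distrib, ← Finset.smul_sum, hrel, hx0, smul_zero,
      add_zero]
  have htinj : Function.Injective t := by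
    intro i j hij
    by_contra hne
    refine hu i j hne ?_
    rw [← hxsum (t i)]
    refine Submodule.sum_mem _ fun k _ => ?_
    by_cases hk : k ≠ i ∧ k ≠ j
    · exact Submodule.smul_mem _ _ (Submodule.subset_span ⟨k, hk, rfl⟩)
    · have : x0 k + t i * D k = 0 := by
        rw [hxt]
        by_cases hki : k = i
        · rw [hki, sub_self, mul_zero]
        · have hkj : k = j := by
            by_contra h; exact hk ⟨hki, h⟩
          rw [hkj, hij, sub_self, mul_zero]
      rw [this, zero_smul]; exact Submodule.zero_mem _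
  -- characterise the cone condition
  have hcone : ∀ i : Fin (M + 1), (∃ x : Fin M → ℝ, (∀ j, 0 < x j) ∧
      ∑ j, x j • (w ∘ i.succAbove) j = u) ↔ ∀ j, j ≠ i → 0 < D j * (t i - t j) := by
    intro i
    constructor
    · rintro ⟨x, hx, hxu⟩ j hj
      let X : Fin (M + 1) → ℝ := i.insertNth 0 x
      have hX : ∑ k, X k • w k = u := by
        rw [Fin.sum_univ_succAbove _ i]
        simp only [X, Fin.insertNth_apply_same, zero_smul, zero_add, Fin.insertNth_apply_succAbove]
        exact hxu
      obtain ⟨s, hs⟩ := huniq (fun k => X k - x0 k) (by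
        simp only [sub_smul, Finset.sum_sub_distrib, hX, hx0, sub_self])
      have hsi := hs i
      simp only [X, Fin.insertNth_apply_same] at hsi
      have hst : s = t i := by
        have := hD i
        simp only [ht]
        field_simp
        linarith
      obtain ⟨k, hk⟩ := Fin.exists_succAbove_eq hj
      have hsj := hs j
      rw [← hxt, ← hst]
      have : x0 j + s * D j = X j := by rw [← hsj]; ring
      rw [this, ← hk]
      simp only [X, Fin.insertNth_apply_succAbove]
      exact hx k
    · intro h
      refine ⟨fun j => x0 (i.succAbove j) + t i * D (i.succAbove j), fun j => ?_, ?_⟩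
      · show 0 < x0 (i.succAbove j) + t i * D (i.succAbove j)
        rw [hxt]; exact h _ (Fin.succAbove_ne i j)
      · have h1 := hxsum (t i)
        rw [Fin.sum_univ_succAbove _ i, hxt i i, sub_self, mul_zero, zero_smul, zero_add] at h1
        exact h1
  have hsum := interval_sum t D htinj hD (fun i => (-1 : ℤ) ^ (i : ℕ) * chi b u (w ∘ i.succAbove))
    (by
      intro i hi
      have h1 : chi b u (w ∘ i.succAbove) = (SignType.sign (b.det (w ∘ i.succAbove)) : ℤ) := by
        unfold chi
        rw [if_pos ((hcone i).2 hi)]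
      rw [h1, hDdef, minor]
      rcases Nat.even_or_odd (i : ℕ) with he | ho
      · rw [he.neg_one_pow, he.neg_one_pow]; simp
      · rw [ho.neg_one_pow, ho.neg_one_pow]
        rw [neg_one_mul, neg_one_mul, Left.sign_neg]
        cases (SignType.sign (b.det (w ∘ i.succAbove))) <;> rfl)
    (by
      intro i hi
      have h1 : chi b u (w ∘ i.succAbove) = 0 := by
        unfold chi
        rw [if_neg (fun h => hi ((hcone i).1 h))]
      rw [h1, mul_zero])
  unfold kap
  by_cases h1 : ∀ i, 0 < minor b w i
  · rw [if_pos h1]; exact hsum.1 h1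
  · rw [if_neg h1]
    by_cases h2 : ∀ i, minor b w i < 0
    · rw [if_pos h2]; exact hsum.2.1 h2
    · rw [if_neg h2]
      push Not at h1 h2
      obtain ⟨i, hi⟩ := h1
      obtain ⟨j, hj⟩ := h2
      exact hsum.2.2 ⟨j, lt_of_le_of_ne hj (hD j).symm⟩ ⟨i, lt_of_le_of_ne hi (hD i)⟩

/-- if a functional is positive on all vectors then the intrinsic sign vanishes -/
lemma kap_eq_zero (w : Fin (M + 1) → W) (φ : W →ₗ[ℝ] ℝ) (hφ : ∀ i, 0 < φ (w i)) :
    kap b w = 0 := by
  have h := congrArg φ (minor_relation b w)
  simp only [map_sum, map_smul, smul_eq_mul, map_zero] at h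
  unfold kap
  rw [if_neg, if_neg]
  · intro h1
    have : ∑ i, minor b w i * φ (w i) < 0 :=
      Finset.sum_neg (fun i _ => mul_neg_of_neg_of_pos (h1 i) (hφ i)) Finset.univ_nonempty
    linarith
  · intro h1
    have : 0 < ∑ i, minor b w i * φ (w i) :=
      Finset.sum_pos (fun i _ => mul_pos (h1 i) (hφ i)) Finset.univ_nonempty
    linarith

/-- the intrinsic sign is invariant under orientation preserving maps -/
lemma kap_map (w : Fin (M + 1) → W) (f : W →ₗ[ℝ] W) (hf : 0 < LinearMap.det f) :
    kap b (f ∘ w) = kap b w := by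
  have h : ∀ i, minor b (f ∘ w) i = LinearMap.det f * minor b w i := by
    intro i
    have h1 : b.det ((f ∘ w) ∘ i.succAbove) = LinearMap.det f * b.det (w ∘ i.succAbove) :=
      Basis.det_comp b f (w ∘ i.succAbove)
    rw [minor, h1, minor]; ring
  unfold kap
  have e1 : (∀ i, 0 < minor b (f ∘ w) i) ↔ ∀ i, 0 < minor b w i := by
    simp only [h, mul_pos_iff_of_pos_left hf]
  have e2 : (∀ i, minor b (f ∘ w) i < 0) ↔ ∀ i, minor b w i < 0 := by
    refine forall_congr' fun i => ?_
    rw [h]
    constructor
    · intro h1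
      by_contra h2
      push Not at h2
      have := mul_nonneg hf.le h2
      linarith
    · intro h1
      exact mul_neg_of_pos_of_neg hf h1
  simp only [e1, e2]

end Pool.Agent.Helper612.TV
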