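import Mathlib
import Pool.Agent.Helper612_TV.Ext

/-!
# Cyclic group action on chains and ladders
-/

set_option autoImplicit false

namespace Pool.Agent.Helper612.TV

variable (R : Type*) [CommRing R] {V I : Type*}

/-- action of a self-map of the vertex set -/
noncomputable def act (f : V → V) :
    ExteriorAlgebra R (V →₀ R) →ₐ[R] ExteriorAlgebra R (V →₀ R) :=
  ExteriorAlgebra.map (Finsupp.lmapDomain R R f)

lemma act_e (f : V → V) (v : V) : act R f (e R v) = e R (f v) := by
  unfold act e
  rw [ExteriorAlgebra.map_apply_ι]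
  simp

lemma act_mono (f : V → V) (l : List V) : act R f (mono R l) = mono R (l.map f) := by
  induction l with
  | nil => simp [mono_nil]
  | cons v l ih => rw [List.map_cons, mono_cons, mono_cons, map_mul, ih, act_e]

lemma bd_act (f : V → V) (x : ExteriorAlgebra R (V →₀ R)) : bd R (act R f x) = act R f (bd R x) := by
  refine CliffordAlgebra.left_induction (0 : QuadraticForm R (V →₀ R))
    (P := fun x => bd R (act R f x) = act R f (bd R x)) ?_ ?_ ?_ x
  · intro r
    have h1 : act R f (algebraMap R _ r) = algebraMap R _ r := AlgHom.commutes _ _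
    rw [h1]
    unfold bd
    rw [CliffordAlgebra.contractLeft_algebraMap]
    simp
  · intro x y hx hy
    simp only [map_add, hx, hy]
  · intro x m hx
    have h1 : act R f (CliffordAlgebra.ι _ m * x) =
        CliffordAlgebra.ι _ (Finsupp.lmapDomain R R f m) * act R f x := by
      rw [map_mul]
      congr 1
      exact ExteriorAlgebra.map_apply_ι _ _
    have h2 : eps R (Finsupp.lmapDomain R R f m) = eps R m := by
      unfold eps
      simp [Finsupp.linearCombination_mapDomain, Function.comp_def]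
    rw [h1]
    unfold bd at hx ⊢
    rw [CliffordAlgebra.contractLeft_ι_mul, CliffordAlgebra.contractLeft_ι_mul, h2, hx, map_sub,
      map_smul, map_mul]
    congr 2
    exact (ExteriorAlgebra.map_apply_ι _ _).symm

lemma act_id : act R (id : V → V) = AlgHom.id R _ := by
  unfold act
  have : Finsupp.lmapDomain R R (id : V → V) = LinearMap.id := by
    ext; simp
  rw [this, ExteriorAlgebra.map_id]

lemma act_comp (f g : V → V) (x : ExteriorAlgebra R (V →₀ R)) :
    act R (f ∘ g) x = act R f (act R g x) := by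
  unfold act
  rw [← AlgHom.comp_apply, ExteriorAlgebra.map_comp_map]
  congr 2
  ext
  simp

variable (p : ℕ) [Fact p.Prime]

/-- shift of rows -/
def sh (g : ZMod p) (v : ZMod p × I) : ZMod p × I := (g + v.1, v.2)

/-- action of the cyclic group -/
noncomputable def tau (g : ZMod p) :
    ExteriorAlgebra R ((ZMod p × I) →₀ R) →ₐ[R] ExteriorAlgebra R ((ZMod p × I) →₀ R) :=
  act R (sh p g)

lemma tau_zero (x : ExteriorAlgebra R ((ZMod p × I) →₀ R)) : tau R p 0 x = x := by
  have : (sh p (0 : ZMod p) : ZMod p × I → ZMod p × I) = id := by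
    funext v; simp [sh]
  rw [tau, this, act_id]; rfl

lemma tau_add (a b : ZMod p) (x : ExteriorAlgebra R ((ZMod p × I) →₀ R)) :
    tau R p (a + b) x = tau R p a (tau R p b x) := by
  have : (sh p (a + b) : ZMod p × I → ZMod p × I) = sh p a ∘ sh p b := by
    funext v; simp [sh, add_assoc]
  rw [tau, this, act_comp]; rfl

lemma bd_tau (a : ZMod p) (x : ExteriorAlgebra R ((ZMod p × I) →₀ R)) :
    bd R (tau R p a x) = tau R p a (bd R x) := bd_act R _ x

/-- norm -/
noncomputable def nm : ExteriorAlgebra R ((ZMod p × I) →₀ R) →ₗ[R]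
    ExteriorAlgebra R ((ZMod p × I) →₀ R) :=
  ∑ g : ZMod p, (tau R p g).toLinearMap

lemma nm_apply (x : ExteriorAlgebra R ((ZMod p × I) →₀ R)) :
    nm R p x = ∑ g : ZMod p, tau R p g x := by
  simp [nm]

lemma bd_nm (x : ExteriorAlgebra R ((ZMod p × I) →₀ R)) : bd R (nm R p x) = nm R p (bd R x) := by
  simp only [nm_apply, map_sum, bd_tau]

lemma nm_tau (a : ZMod p) (x : ExteriorAlgebra R ((ZMod p × I) →₀ R)) :
    nm R p (tau R p a x) = nm R p x := by
  simp only [nm_apply, ← tau_add]
  exact Equiv.sum_comp (Equiv.addRight a) (fun g => tau R p g x)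

lemma tau_nm (a : ZMod p) (x : ExteriorAlgebra R ((ZMod p × I) →₀ R)) :
    tau R p a (nm R p x) = nm R p x := by
  simp only [nm_apply, map_sum, ← tau_add]
  exact Equiv.sum_comp (Equiv.addLeft a) (fun g => tau R p g x)

/-- difference operator -/
noncomputable def df : ExteriorAlgebra R ((ZMod p × I) →₀ R) →ₗ[R]
    ExteriorAlgebra R ((ZMod p × I) →₀ R) :=
  (tau R p 1).toLinearMap - LinearMap.id

lemma df_apply (x : ExteriorAlgebra R ((ZMod p × I) →₀ R)) :
    df R p x = tau R p 1 x - x := by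
  simp [df]

lemma bd_df (x : ExteriorAlgebra R ((ZMod p × I) →₀ R)) : bd R (df R p x) = df R p (bd R x) := by
  simp only [df_apply, map_sub, bd_tau]

lemma df_nm (x : ExteriorAlgebra R ((ZMod p × I) →₀ R)) : df R p (nm R p x) = 0 := by
  rw [df_apply, tau_nm, sub_self]

lemma nm_df (x : ExteriorAlgebra R ((ZMod p × I) →₀ R)) : nm R p (df R p x) = 0 := by
  rw [df_apply, map_sub, nm_tau, sub_self]

/-- ladder operators -/
noncomputable def th : ℕ → (ExteriorAlgebra R ((ZMod p × I) →₀ R) →ₗ[R]
    ExteriorAlgebra R ((ZMod p × I) →₀ R))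
  | 0 => LinearMap.id
  | (q + 1) => if Even q then df R p else nm R p

lemma th_succ (q : ℕ) : (th R p (q + 1) : ExteriorAlgebra R ((ZMod p × I) →₀ R) →ₗ[R]
    ExteriorAlgebra R ((ZMod p × I) →₀ R)) = if Even q then df R p else nm R p := rfl

lemma bd_th (q : ℕ) (x : ExteriorAlgebra R ((ZMod p × I) →₀ R)) :
    bd R (th R p q x) = th R p q (bd R x) := by
  cases q with
  | zero => rfl
  | succ q =>
    rw [th_succ]
    split_ifs
    · exact bd_df R p x
    · exact bd_nm R p x

lemma th_th (q : ℕ) (x : ExteriorAlgebra R ((ZMod p × I) →₀ R)) :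
    th R p (q + 2) (th R p (q + 1) x) = 0 := by
  rw [th_succ, th_succ]
  by_cases h : Even q
  · rw [if_neg (by rw [Nat.even_add_one]; simpa using h), if_pos h, nm_df]
  · rw [if_pos (by rw [Nat.even_add_one]; exact h), if_neg h, df_nm]

lemma th_one : th R p 1 (1 : ExteriorAlgebra R ((ZMod p × I) →₀ R)) = 0 := by
  rw [th_succ, if_pos (by simp), df_apply, map_one, sub_self]

lemma th_mem (C : ℕ → Submodule R (ExteriorAlgebra R ((ZMod p × I) →₀ R)))
    (hτ : ∀ q g x, x ∈ C q → tau R p g x ∈ C q) (q q' : ℕ)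
    (x : ExteriorAlgebra R ((ZMod p × I) →₀ R)) (hx : x ∈ C q) : th R p q' x ∈ C q := by
  cases q' with
  | zero => exact hx
  | succ q' =>
    rw [th_succ]
    split_ifs
    · rw [df_apply]; exact Submodule.sub_mem _ (hτ _ _ _ hx) hx
    · rw [nm_apply]; exact Submodule.sum_mem _ fun g _ => hτ _ _ _ hx

theorem ladder (C : ℕ → Submodule R (ExteriorAlgebra R ((ZMod p × I) →₀ R)))
    (hτ : ∀ q g x, x ∈ C q → tau R p g x ∈ C q)
    (h1 : (1 : ExteriorAlgebra R ((ZMod p × I) →₀ R)) ∈ C 0) (L : ℕ)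
    (hac : ∀ q < L, ∀ z ∈ C q, bd R z = 0 → ∃ w ∈ C (q + 1), bd R w = z) :
    ∃ x : ℕ → ExteriorAlgebra R ((ZMod p × I) →₀ R), x 0 = 1 ∧ (∀ q ≤ L, x q ∈ C q) ∧
      ∀ q < L, bd R (x (q + 1)) = th R p q (x q) := by
  induction L with
  | zero => exact ⟨fun _ => 1, rfl, fun q hq => by
      have : q = 0 := by omega
      subst this; exact h1, fun q hq => by omega⟩
  | succ L ih =>
    obtain ⟨x, hx0, hx1, hx2⟩ := ih (fun q hq => hac q (by omega))
    have hcyc : bd R (th R p L (x L)) = 0 := by
      rw [bd_th]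
      cases L with
      | zero => rw [hx0, bd_one, map_zero]
      | succ L =>
        rw [hx2 L (by omega)]
        cases L with
        | zero =>
          rw [hx0]
          exact th_one R p
        | succ L => exact th_th R p L _
    obtain ⟨w, hw, hbw⟩ := hac L (by omega) _ (th_mem R p C hτ L L _ (hx1 L le_rfl)) hcyc
    refine ⟨Function.update x (L + 1) w, ?_, ?_, ?_⟩
    · rw [Function.update_of_ne (by omega), hx0]
    · intro q hq
      by_cases h : q = L + 1
      · subst h; rw [Function.update_self]; exact hw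
      · rw [Function.update_of_ne h]; exact hx1 q (by omega)
    · intro q hq
      rw [Function.update_of_ne (show q ≠ L + 1 by omega)]
      by_cases h : q = L
      · subst h; rw [Function.update_self]; exact hbw
      · rw [Function.update_of_ne (by omega)]; exact hx2 q (by omega)

theorem ladder_compare (C : ℕ → Submodule R (ExteriorAlgebra R ((ZMod p × I) →₀ R)))
    (hτ : ∀ q g x, x ∈ C q → tau R p g x ∈ C q) (L : ℕ)
    (hac : ∀ q ≤ L, ∀ z ∈ C q, bd R z = 0 → ∃ w ∈ C (q + 1), bd R w = z)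
    (x y : ℕ → ExteriorAlgebra R ((ZMod p × I) →₀ R)) (hx0 : x 0 = 1) (hy0 : y 0 = 1)
    (hxm : ∀ q ≤ L, x q ∈ C q) (hym : ∀ q ≤ L, y q ∈ C q)
    (hx : ∀ q < L, bd R (x (q + 1)) = th R p q (x q))
    (hy : ∀ q < L, bd R (y (q + 1)) = th R p q (y q)) :
    ∀ q, q + 1 ≤ L → ∃ h ∈ C (q + 2), ∃ k, th R p (q + 1) k = 0 ∧
      x (q + 1) - y (q + 1) = k + bd R h := by
  intro q
  induction q with
  | zero =>
    intro hL
    obtain ⟨h, hh, hb⟩ := hac 1 hL (x 1 - y 1) (Submodule.sub_mem _ (hxm 1 hL) (hym 1 hL)) (by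
      rw [map_sub, hx 0 (by omega), hy 0 (by omega), hx0, hy0, sub_self])
    exact ⟨h, hh, 0, by rw [map_zero], by rw [hb]; exact (zero_add _).symm⟩
  | succ q ih =>
    intro hL
    obtain ⟨h, hh, k, hk, hxy⟩ := ih (by omega)
    obtain ⟨h', hh', hb'⟩ := hac (q + 2) hL (x (q + 2) - y (q + 2) - th R p (q + 1) h)
      (Submodule.sub_mem _ (Submodule.sub_mem _ (hxm _ hL) (hym _ hL))
        (th_mem R p C hτ _ _ _ hh)) (by
      rw [map_sub, map_sub, hx (q + 1) (by omega), hy (q + 1) (by omega), bd_th, ← map_sub, ← map_sub,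
        hxy, add_sub_cancel_right, hk])
    refine ⟨h', hh', th R p (q + 1) h, th_th R p q h, ?_⟩
    rw [hb']; abel

end Pool.Agent.Helper612.TV
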