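import Mathlib
import Pool.Agent.Helper612_TV.Ext
import Pool.Agent.Helper612_TV.Ladder

/-!
# The explicit ladder made of polygons
-/

set_option autoImplicit false

namespace Pool.Agent.Helper612.TV

variable (R : Type*) [CommRing R] (p : ℕ) [Fact p.Prime] {I : Type*} {n : ℕ}

/-- first special point of a plane -/
def pa (l : Fin n) : I ⊕ (Fin n × Bool) := Sum.inr (l, false)

/-- second special point of a plane -/
def pb (l : Fin n) : I ⊕ (Fin n × Bool) := Sum.inr (l, true)

/-- the board on which every point is its own row -/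
def boardB (I : Type*) (p : ℕ) : Board (ZMod p × I) I (ZMod p × I) I where
  row v := v.2
  col v := v
  bP x := x
  bQ v := v.2
  vert _ v := v
  h1 _ := rfl
  hr _ _ h := h.symm
  hc _ _ _ := rfl
  hv _ := rfl

/-- chains with distinct points -/
noncomputable def ChB [Fintype I] (q : ℕ) (S : Finset I) :
    Submodule R (ExteriorAlgebra R ((ZMod p × I) →₀ R)) :=
  Ch R (boardB I p) q S Finset.univ

lemma faceB_iff [Fintype I] (S : Finset I) (l : List (ZMod p × I)) :
    Face (boardB I p) S Finset.univ l ↔
      l.Pairwise (fun v w => v.2 ≠ w.2) ∧ ∀ v ∈ l, v.2 ∈ S := by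
  unfold Face boardB
  simp only [Finset.mem_univ, and_true]
  constructor
  · rintro ⟨h1, h2⟩
    exact ⟨h1.imp (fun h => h.1), h2⟩
  · rintro ⟨h1, h2⟩
    exact ⟨h1.imp (fun h => ⟨h, fun h' => h (by rw [h'])⟩), h2⟩

lemma e_mul_memB [Fintype I] [DecidableEq I] {q : ℕ} {S : Finset I} (v : ZMod p × I) (hv : v.2 ∉ S)
    {y : ExteriorAlgebra R ((ZMod p × I) →₀ R)} (hy : y ∈ ChB R p q S) :
    e R v * y ∈ ChB R p (q + 1) (insert v.2 S) := by
  unfold ChB Ch at hy
  induction hy using Submodule.span_induction with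
  | mem z hz =>
    obtain ⟨l, hl, hq, rfl⟩ := hz
    rw [faceB_iff] at hl
    rw [← mono_cons]
    refine mono_mem R ?_ (by rw [List.length_cons, hq])
    rw [faceB_iff]
    refine ⟨List.pairwise_cons.2 ⟨fun w hw h => hv (h ▸ hl.2 w hw), hl.1⟩, fun w hw => ?_⟩
    rcases List.mem_cons.1 hw with rfl | hw
    · exact Finset.mem_insert_self _ _
    · exact Finset.mem_insert_of_mem (hl.2 w hw)
  | zero => rw [mul_zero]; exact Submodule.zero_mem _
  | add x y _ _ hx hy => rw [mul_add]; exact Submodule.add_mem _ hx hy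
  | smul c x _ hx => rw [mul_smul_comm]; exact Submodule.smul_mem _ _ hx

lemma tau_memB [Fintype I] {q : ℕ} {S : Finset I} (g : ZMod p)
    {y : ExteriorAlgebra R ((ZMod p × I) →₀ R)} (hy : y ∈ ChB R p q S) :
    tau R p g y ∈ ChB R p q S := by
  unfold ChB Ch at hy
  induction hy using Submodule.span_induction with
  | mem z hz =>
    obtain ⟨l, hl, hq, rfl⟩ := hz
    rw [faceB_iff] at hl
    rw [tau, act_mono]
    refine mono_mem R ?_ (by rw [List.length_map, hq])
    rw [faceB_iff]
    refine ⟨List.pairwise_map.2 hl.1, fun w hw => ?_⟩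
    obtain ⟨v, hv, rfl⟩ := List.mem_map.1 hw
    exact hl.2 v hv
  | zero => rw [map_zero]; exact Submodule.zero_mem _
  | add x y _ _ hx hy => rw [map_add]; exact Submodule.add_mem _ hx hy
  | smul c x _ hx => rw [map_smul]; exact Submodule.smul_mem _ _ hx

lemma ChB_mono [Fintype I] (q : ℕ) {S S' : Finset I} (h : S ⊆ S') :
    ChB R p q S ≤ ChB R p q S' := Ch_mono R q h (Finset.Subset.refl _)

variable (s t : Fin n → ZMod p)

/-- edges of the polygon in a plane -/
def edge (I : Type*) (l : Fin n) (ε : ZMod p × Bool) : List (ZMod p × (I ⊕ (Fin n × Bool))) :=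
  if ε.2 then [(ε.1, pb l), (ε.1 + t l, pa l)] else [(ε.1, pa l), (ε.1, pb l)]

/-- the two basic edges -/
noncomputable def EE (I : Type*) (l : Fin n) :
    ExteriorAlgebra R ((ZMod p × (I ⊕ (Fin n × Bool))) →₀ R) :=
  mono R (edge p t I l (0, false)) + mono R (edge p t I l (0, true))

/-- the path -/
noncomputable def ell (I : Type*) (l : Fin n) :
    ExteriorAlgebra R ((ZMod p × (I ⊕ (Fin n × Bool))) →₀ R) :=
  ∑ k ∈ Finset.range (s l).val, tau R p ((k : ZMod p) * t l) (EE R p t I l)

lemma tau_edge (g : ZMod p) (l : Fin n) (b : Bool) :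
    tau R p g (mono R (edge p t I l (0, b))) = mono R (edge p t I l (g, b)) := by
  rw [tau, act_mono]
  congr 1
  cases b
  · simp [edge, sh]
  · simp [edge, sh]

lemma nm_EE (l : Fin n) : nm R p (EE R p t I l) =
    ∑ ε : ZMod p × Bool, mono R (edge p t I l ε) := by
  rw [nm_apply, Fintype.sum_prod_type]
  refine Finset.sum_congr rfl fun g _ => ?_
  rw [EE, map_add, tau_edge, tau_edge, Fintype.sum_bool, add_comm]

lemma nm_ell (l : Fin n) : nm R p (ell R p s t I l) = ((s l).val : R) • nm R p (EE R p t I l) := by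
  rw [ell, map_sum]
  simp only [nm_tau]
  rw [Finset.sum_const, Finset.card_range, Nat.cast_smul_eq_nsmul]

lemma bd_EE (l : Fin n) : bd R (EE R p t I l) = e R (t l, pa l) - e R (0, pa l) := by
  rw [EE, map_add]
  simp only [edge, mono_cons, mono_nil, bd_e_mul, bd_one, Bool.false_eq_true, if_false, if_true]
  simp

lemma bd_ell (hst : ∀ l, s l * t l = 1) (l : Fin n) :
    bd R (ell R p s t I l) = df R p (e R (0, pa l)) := by
  rw [ell, map_sum]
  have h1 : ∀ k ∈ Finset.range (s l).val,
      bd R (tau R p ((k : ZMod p) * t l) (EE R p t I l)) =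
      e R ((((k + 1 : ℕ) : ZMod p) * t l), (pa l : I ⊕ (Fin n × Bool))) -
        e R (((k : ZMod p) * t l), pa l) := by
    intro k _
    rw [bd_tau, bd_EE, map_sub, tau, act_e, act_e]
    simp only [sh, add_zero]
    congr 3
    push_cast
    ring
  rw [Finset.sum_congr rfl h1, Finset.sum_range_sub (fun k : ℕ => e R (((k : ZMod p) * t l),
    (pa l : I ⊕ (Fin n × Bool)))), df_apply, tau, act_e]
  simp only [sh, Nat.cast_zero, zero_mul, add_zero]
  rw [ZMod.natCast_val, ZMod.cast_id', id, hst]

/-- derivation property for even elements of degree two -/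
lemma bd_two (v w : ZMod p × I) (x : ExteriorAlgebra R ((ZMod p × I) →₀ R)) :
    bd R (e R v * (e R w * x)) = (bd R (e R v * e R w)) * x + e R v * (e R w * bd R x) := by
  have h : e R v * e R w = e R v * (e R w * 1) := by rw [mul_one]
  rw [h, bd_e_mul, bd_e_mul, bd_e_mul, bd_e_mul, bd_one]
  simp only [mul_zero, sub_zero, mul_one, sub_mul, mul_sub]
  abel

/-- the derivation property -/
def P2 (z : ExteriorAlgebra R ((ZMod p × I) →₀ R)) : Prop :=
  ∀ x, bd R (z * x) = bd R z * x + z * bd R x

lemma P2_mul (v w : ZMod p × I) : P2 R p (e R v * e R w) := by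
  intro x
  rw [mul_assoc, bd_two, mul_assoc]

lemma P2_add {z z' : ExteriorAlgebra R ((ZMod p × I) →₀ R)} (h : P2 R p z) (h' : P2 R p z') :
    P2 R p (z + z') := by
  intro x
  rw [add_mul, map_add, h, h', map_add, add_mul, add_mul]
  abel

lemma P2_sum {κ : Type*} (F : Finset κ) (z : κ → ExteriorAlgebra R ((ZMod p × I) →₀ R))
    (h : ∀ k ∈ F, P2 R p (z k)) : P2 R p (∑ k ∈ F, z k) := by
  classical
  induction F using Finset.induction_on with
  | empty => intro x; simp
  | insert a F ha ih =>
    rw [Finset.sum_insert ha]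
    exact P2_add R p (h a (Finset.mem_insert_self _ _))
      (ih fun k hk => h k (Finset.mem_insert_of_mem hk))

lemma ell_eq (l : Fin n) : ell R p s t I l = ∑ k ∈ Finset.range (s l).val,
    (mono R (edge p t I l ((k : ZMod p) * t l, false)) +
      mono R (edge p t I l ((k : ZMod p) * t l, true))) := by
  rw [ell]
  refine Finset.sum_congr rfl fun k _ => ?_
  rw [EE, map_add, tau_edge, tau_edge]

lemma P2_edge (l : Fin n) (ε : ZMod p × Bool) : P2 R p (mono R (edge p t I l ε)) := by
  unfold edge
  split_ifs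
  · rw [mono_cons, mono_cons, mono_nil, mul_one]; exact P2_mul R p _ _
  · rw [mono_cons, mono_cons, mono_nil, mul_one]; exact P2_mul R p _ _

lemma P2_ell (l : Fin n) : P2 R p (ell R p s t I l) := by
  rw [ell_eq]
  exact P2_sum R p _ _ fun k _ => P2_add R p (P2_edge R p t l _) (P2_edge R p t l _)

/-- special points of a list of planes -/
def ptsOf [DecidableEq I] : List (Fin n) → Finset (I ⊕ (Fin n × Bool))
  | [] => ∅
  | (j :: L) => insert (pa j) (insert (pb j) (ptsOf L))

lemma mem_ptsOf [DecidableEq I] (L : List (Fin n)) (x : I ⊕ (Fin n × Bool)) :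
    x ∈ ptsOf L ↔ ∃ j ∈ L, x = pa j ∨ x = pb j := by
  induction L with
  | nil => simp [ptsOf]
  | cons j L ih =>
    rw [ptsOf, Finset.mem_insert, Finset.mem_insert, ih]
    constructor
    · rintro (h | h | ⟨j', h1, h2⟩)
      · exact ⟨j, by simp, Or.inl h⟩
      · exact ⟨j, by simp, Or.inr h⟩
      · exact ⟨j', by simp [h1], h2⟩
    · rintro ⟨j', h1, h2⟩
      rcases List.mem_cons.1 h1 with rfl | h1
      · rcases h2 with h2 | h2
        · exact Or.inl h2
        · exact Or.inr (Or.inl h2)
      · exact Or.inr (Or.inr ⟨j', h1, h2⟩)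

lemma edge_mul_mem [Fintype I] [DecidableEq I] {q : ℕ} {L : List (Fin n)} {j : Fin n} (hj : j ∉ L)
    (ε : ZMod p × Bool) {y : ExteriorAlgebra R ((ZMod p × (I ⊕ (Fin n × Bool))) →₀ R)}
    (hy : y ∈ ChB R p q (ptsOf L)) :
    mono R (edge p t I j ε) * y ∈ ChB R p (q + 2) (ptsOf (j :: L)) := by
  have ha : (pa j : I ⊕ (Fin n × Bool)) ∉ ptsOf L := by
    rw [mem_ptsOf]
    rintro ⟨j', h1, h2 | h2⟩
    · simp only [pa, Sum.inr.injEq, Prod.mk.injEq, and_true] at h2
      exact hj (h2 ▸ h1)
    · simp [pa, pb] at h2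
  have hb : (pb j : I ⊕ (Fin n × Bool)) ∉ ptsOf L := by
    rw [mem_ptsOf]
    rintro ⟨j', h1, h2 | h2⟩
    · simp [pa, pb] at h2
    · simp only [pb, Sum.inr.injEq, Prod.mk.injEq, and_true] at h2
      exact hj (h2 ▸ h1)
  have hab : (pa j : I ⊕ (Fin n × Bool)) ≠ pb j := by simp [pa, pb]
  unfold edge
  split_ifs
  · rw [mono_cons, mono_cons, mono_nil, mul_one, mul_assoc]
    have h1 := e_mul_memB R p (ε.1 + t j, (pa j : I ⊕ (Fin n × Bool))) ha hy
    have h2 := e_mul_memB R p (ε.1, (pb j : I ⊕ (Fin n × Bool)))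
      (by rw [Finset.mem_insert]; rintro (h | h); exacts [hab h.symm, hb h]) h1
    refine ChB_mono R p _ ?_ h2
    rw [ptsOf]
    intro x hx
    simp only [Finset.mem_insert] at hx ⊢
    tauto
  · rw [mono_cons, mono_cons, mono_nil, mul_one, mul_assoc]
    have h1 := e_mul_memB R p (ε.1, (pb j : I ⊕ (Fin n × Bool))) hb hy
    have h2 := e_mul_memB R p (ε.1, (pa j : I ⊕ (Fin n × Bool)))
      (by rw [Finset.mem_insert]; rintro (h | h); exacts [hab h, ha h]) h1
    exact h2

/-- the explicit ladder -/
theorem ladderL [Fintype I] [DecidableEq I] (hst : ∀ l, s l * t l = 1) (L : List (Fin n))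
    (hL : L.Nodup) :
    ∃ y : ℕ → ExteriorAlgebra R ((ZMod p × (I ⊕ (Fin n × Bool))) →₀ R), y 0 = 1 ∧
      (∀ q ≤ 2 * L.length, y q ∈ ChB R p q (ptsOf L)) ∧
      (∀ q < 2 * L.length, bd R (y (q + 1)) = th R p q (y q)) ∧
      th R p (2 * L.length) (y (2 * L.length)) =
        (L.map (fun j => nm R p (ell R p s t I j))).prod ∧
      bd R ((L.map (fun j => nm R p (ell R p s t I j))).prod) = 0 ∧
      ∀ g, tau R p g ((L.map (fun j => nm R p (ell R p s t I j))).prod) =
        (L.map (fun j => nm R p (ell R p s t I j))).prod := by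
  induction L with
  | nil =>
    refine ⟨fun _ => 1, rfl, ?_, ?_, ?_, ?_, ?_⟩
    · intro q hq
      have : q = 0 := by simpa using hq
      subst this
      exact one_mem R _ _
    · intro q hq; simp at hq
    · simp [th]
    · simp [bd_one]
    · intro g; simp
  | cons j L ih =>
    rw [List.nodup_cons] at hL
    obtain ⟨y, hy0, hy1, hy2, hy3, hy4, hy5⟩ := ih hL.2
    set D := (L.map (fun j => nm R p (ell R p s t I j))).prod with hD
    have hDmem : D ∈ ChB R p (2 * L.length) (ptsOf L) := by
      rw [← hy3]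
      exact th_mem R p (fun q => ChB R p q (ptsOf L)) (fun q g x hx => tau_memB R p g hx) _ _ _
        (hy1 _ le_rfl)
    have ha : (pa j : I ⊕ (Fin n × Bool)) ∉ ptsOf L := by
      rw [mem_ptsOf]
      rintro ⟨j', h1, h2 | h2⟩
      · simp only [pa, Sum.inr.injEq, Prod.mk.injEq, and_true] at h2
        exact hL.1 (h2 ▸ h1)
      · simp [pa, pb] at h2
    have hlen : 2 * (j :: L).length = 2 * L.length + 2 := by
      rw [List.length_cons]; ring
    have hnmP : ∀ g, tau R p g (nm R p (ell R p s t I j)) = nm R p (ell R p s t I j) :=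
      fun g => tau_nm R p g _
    refine ⟨fun q => if q ≤ 2 * L.length then y q else if q = 2 * L.length + 1 then
      e R (0, pa j) * D else ell R p s t I j * D, ?_, ?_, ?_, ?_, ?_, ?_⟩
    · simp only [Nat.zero_le, if_true]; exact hy0
    · intro q hq
      simp only
      split_ifs with h1 h2
      · refine ChB_mono R p q ?_ (hy1 q h1)
        rw [ptsOf]
        exact (Finset.subset_insert _ _).trans (Finset.subset_insert _ _)
      · rw [h2]
        have := e_mul_memB R p (0, (pa j : I ⊕ (Fin n × Bool))) ha hDmem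
        refine ChB_mono R p _ ?_ this
        rw [ptsOf]
        exact Finset.insert_subset_insert _ (Finset.subset_insert _ _)
      · have hq' : q = 2 * L.length + 2 := by omega
        rw [hq', ell_eq, Finset.sum_mul]
        refine Submodule.sum_mem _ fun k _ => ?_
        rw [add_mul]
        exact Submodule.add_mem _ (edge_mul_mem R p t hL.1 _ hDmem)
          (edge_mul_mem R p t hL.1 _ hDmem)
    · intro q hq
      simp only
      by_cases h1 : q + 1 ≤ 2 * L.length
      · rw [if_pos h1, if_pos (by omega)]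
        exact hy2 q (by omega)
      · rw [if_neg h1]
        by_cases h2 : q = 2 * L.length
        · rw [if_pos (by omega), if_pos (by omega), h2, hy3, bd_e_mul, hy4, mul_zero, sub_zero]
        · have h3 : q = 2 * L.length + 1 := by omega
          rw [if_neg (by omega), if_neg (by omega), if_pos h3, P2_ell R p s t j D, hy4, mul_zero,
            add_zero, bd_ell R p s t hst, h3, th_succ, if_pos (even_two_mul _), df_apply, df_apply,
            map_mul, hy5, sub_mul]
    · rw [hlen]
      beta_reduce
      rw [if_neg (by omega), if_neg (by omega), th_succ, if_neg (by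
        rw [Nat.not_even_iff_odd]; exact ⟨L.length, rfl⟩), List.map_cons, List.prod_cons, ← hD,
        nm_apply, nm_apply, Finset.sum_mul]
      refine Finset.sum_congr rfl fun g _ => ?_
      rw [map_mul, hy5]
    · rw [List.map_cons, List.prod_cons, ← hD, nm_apply, Finset.sum_mul, map_sum]
      have h1 : ∀ g : ZMod p, bd R (tau R p g (ell R p s t I j) * D) =
          tau R p g (bd R (ell R p s t I j)) * D := by
        intro g
        have h2 : tau R p g (ell R p s t I j) * D = tau R p g (ell R p s t I j * D) := by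
          rw [map_mul, hy5]
        rw [h2, bd_tau, P2_ell R p s t j D, hy4, mul_zero, add_zero, map_mul, hy5]
      rw [Finset.sum_congr rfl (fun g _ => h1 g), ← Finset.sum_mul, ← nm_apply, bd_ell R p s t hst,
        nm_df, zero_mul]
    · intro g
      rw [List.map_cons, List.prod_cons, ← hD, map_mul, hy5, hnmP]

/-- concatenation of chosen edges -/
def flat (I : Type*) (φ : Fin n → ZMod p × Bool) (L : List (Fin n)) :
    List (ZMod p × (I ⊕ (Fin n × Bool))) :=
  (L.map (fun j => edge p t I j (φ j))).flatten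

lemma flat_cons (φ : Fin n → ZMod p × Bool) (j : Fin n) (L : List (Fin n)) :
    flat p t I φ (j :: L) = edge p t I j (φ j) ++ flat p t I φ L := rfl

lemma flat_update (φ : Fin n → ZMod p × Bool) (j : Fin n) (L : List (Fin n)) (hj : j ∉ L)
    (ε : ZMod p × Bool) :
    flat p t I (Function.update φ j ε) L = flat p t I φ L := by
  unfold flat
  congr 1
  refine List.map_congr_left fun k hk => ?_
  rw [Function.update_of_ne]
  rintro rfl
  exact hj hk

/-- expansion of the product of polygons -/
theorem prod_polygons (L : List (Fin n)) (hL : L.Nodup) :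
    (L.map (fun j => nm R p (EE R p t I j))).prod -
      mono R (flat p t I (fun _ => (0, false)) L) ∈
    Submodule.span R {z | ∃ φ : Fin n → ZMod p × Bool, (∃ j ∈ L, φ j ≠ (0, false)) ∧
      z = mono R (flat p t I φ L)} := by
  induction L with
  | nil => simp [flat, mono_nil]
  | cons j L ih =>
    rw [List.nodup_cons] at hL
    have hK := ih hL.2
    set A := mono R (flat p t I (fun _ => (0, false)) L) with hA
    set X := (L.map (fun j => nm R p (EE R p t I j))).prod with hX
    have h0 : (((j :: L).map (fun j => nm R p (EE R p t I j))).prod -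
        mono R (flat p t I (fun _ => (0, false)) (j :: L))) =
        ∑ ε : ZMod p × Bool, (mono R (edge p t I j ε) * (X - A)) +
        ∑ ε ∈ Finset.univ.erase ((0, false) : ZMod p × Bool), mono R (edge p t I j ε) * A := by
      rw [List.map_cons, List.prod_cons, ← hX, nm_EE, flat_cons, mono_append, ← hA]
      have h1 := Finset.add_sum_erase Finset.univ (fun ε => mono R (edge p t I j ε) * A)
        (Finset.mem_univ ((0, false) : ZMod p × Bool))
      simp only [mul_sub, Finset.sum_sub_distrib, ← Finset.sum_mul] at h1 ⊢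
      rw [← h1]
      abel
    rw [h0]
    refine Submodule.add_mem _ (Submodule.sum_mem _ fun ε _ => ?_)
      (Submodule.sum_mem _ fun ε hε => ?_)
    · have hle : Submodule.span R {z | ∃ φ : Fin n → ZMod p × Bool, (∃ j ∈ L, φ j ≠ (0, false)) ∧
          z = mono R (flat p t I φ L)} ≤
          (Submodule.span R {z | ∃ φ : Fin n → ZMod p × Bool,
            (∃ j' ∈ (j :: L), φ j' ≠ (0, false)) ∧ z = mono R (flat p t I φ (j :: L))}).comap
          (LinearMap.mulLeft R (mono R (edge p t I j ε))) := by
        rw [Submodule.span_le]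
        rintro z ⟨φ, ⟨j', hj', hφ⟩, rfl⟩
        rw [SetLike.mem_coe, Submodule.mem_comap, LinearMap.mulLeft_apply]
        refine Submodule.subset_span ⟨Function.update φ j ε, ⟨j', List.mem_cons_of_mem _ hj', ?_⟩, ?_⟩
        · rw [Function.update_of_ne]
          · exact hφ
          · rintro rfl; exact hL.1 hj'
        · rw [flat_cons, mono_append, flat_update p t φ j L hL.1, Function.update_self]
      exact hle hK
    · refine Submodule.subset_span ⟨Function.update (fun _ => (0, false)) j ε,
        ⟨j, List.mem_cons_self, ?_⟩, ?_⟩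
      · rw [Function.update_self]; exact (Finset.mem_erase.1 hε).1
      · rw [flat_cons, mono_append, flat_update p t _ j L hL.1, Function.update_self]

end Pool.Agent.Helper612.TV
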