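import Mathlib
import Pool.Agent.Helper612_TV.Poly
import Pool.Agent.Helper612_TV.Cone

/-!
# The special positions: regular polygons in coordinate planes
-/

set_option autoImplicit false

open Module

namespace Pool.Agent.Helper612.TV

/-- unit vector at an angle -/
noncomputable def dir (θ : ℝ) : ℂ := ⟨Real.cos θ, Real.sin θ⟩

lemma dir_mul (a b : ℝ) : dir a * dir b = dir (a + b) := by
  apply Complex.ext
  · simp [dir, Complex.mul_re, Real.cos_add]
  · simp [dir, Complex.mul_im, Real.sin_add]; ring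

lemma dir_zero : dir 0 = 1 := by
  apply Complex.ext <;> simp [dir]

lemma exp_eq_dir (θ : ℝ) : Complex.exp (θ * Complex.I) = dir θ := by
  apply Complex.ext
  · rw [Complex.exp_ofReal_mul_I_re]; rfl
  · rw [Complex.exp_ofReal_mul_I_im]; rfl

/-- planar functional -/
noncomputable def cr (α β a b : ℝ) : ℂ →ₗ[ℝ] ℝ :=
  (α * Real.cos a - β * Real.cos b) • Complex.imLm + (β * Real.sin b - α * Real.sin a) • Complex.reLm

lemma cr_dir (α β a b θ : ℝ) :
    cr α β a b (dir θ) = α * Real.sin (θ - a) + β * Real.sin (b - θ) := by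
  simp only [cr, dir, LinearMap.add_apply, LinearMap.smul_apply, Complex.imLm_coe, Complex.reLm_coe,
    smul_eq_mul, Real.sin_sub]
  ring

variable (p : ℕ) [Fact p.Prime]

lemma sin_pos_aux (h2 : 2 ≤ p) (m : ℕ) (h1 : 1 ≤ m) (hm : m < p) :
    0 < Real.sin (m * Real.pi / p) := by
  have hp : (0 : ℝ) < p := by positivity
  have hm' : (m : ℝ) < p := by exact_mod_cast hm
  have h1' : (1 : ℝ) ≤ m := by exact_mod_cast h1
  refine Real.sin_pos_of_pos_of_lt_pi (by positivity) ?_
  rw [div_lt_iff₀ hp]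
  have := Real.pi_pos
  nlinarith

lemma sin_nonneg_aux (h2 : 2 ≤ p) (m : ℕ) (hm : m ≤ p) : 0 ≤ Real.sin (m * Real.pi / p) := by
  have hp : (0 : ℝ) < p := by positivity
  have hm' : (m : ℝ) ≤ p := by exact_mod_cast hm
  refine Real.sin_nonneg_of_nonneg_of_le_pi (by positivity) ?_
  rw [div_le_iff₀ hp]
  have := Real.pi_pos
  nlinarith

lemma sin_neg_aux (h2 : 2 ≤ p) (m : ℕ) (h1 : p < m) (hm : m < 2 * p) :
    Real.sin (m * Real.pi / p) < 0 := by
  have hp : (0 : ℝ) < p := by positivity
  obtain ⟨k, rfl⟩ : ∃ k, m = p + k := ⟨m - p, by omega⟩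
  have h3 : ((p + k : ℕ) : ℝ) * Real.pi / p = k * Real.pi / p + Real.pi := by
    push_cast; field_simp; ring
  rw [h3, Real.sin_add_pi]
  have := sin_pos_aux p h2 k (by omega) (by omega)
  linarith

lemma sin_nonpos_aux (h2 : 2 ≤ p) (m : ℕ) (h1 : p ≤ m) (hm : m ≤ 2 * p) :
    Real.sin (m * Real.pi / p) ≤ 0 := by
  have hp : (0 : ℝ) < p := by positivity
  obtain ⟨k, rfl⟩ : ∃ k, m = p + k := ⟨m - p, by omega⟩
  have h3 : ((p + k : ℕ) : ℝ) * Real.pi / p = k * Real.pi / p + Real.pi := by
    push_cast; field_simp; ring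
  rw [h3, Real.sin_add_pi]
  have := sin_nonneg_aux p h2 k (by omega)
  linarith

lemma plane_pos (h2 : 2 ≤ p) (m : ℕ) : ∃ φ : ℂ →ₗ[ℝ] ℝ,
    0 < φ (dir (m * Real.pi / p)) ∧ 0 < φ (dir ((m + 1 : ℕ) * Real.pi / p)) := by
  have hs := sin_pos_aux p h2 1 le_rfl (by omega)
  rw [Nat.cast_one, one_mul] at hs
  have hp : (0 : ℝ) < p := by positivity
  refine ⟨cr 1 1 (m * Real.pi / p) ((m + 1 : ℕ) * Real.pi / p), ?_, ?_⟩
  · rw [cr_dir, sub_self, Real.sin_zero]
    have : ((m + 1 : ℕ) : ℝ) * Real.pi / p - m * Real.pi / p = Real.pi / p := by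
      push_cast; ring
    rw [this]; linarith
  · rw [cr_dir, sub_self, Real.sin_zero]
    have : ((m + 1 : ℕ) : ℝ) * Real.pi / p - m * Real.pi / p = Real.pi / p := by
      push_cast; ring
    rw [this]; linarith

lemma plane_neg (h2 : 2 ≤ p) (m : ℕ) (h1 : 1 ≤ m) (hm : m < 2 * p) : ∃ φ : ℂ →ₗ[ℝ] ℝ,
    0 < φ (dir (m * Real.pi / p)) ∧ 0 < φ (dir ((m + 1 : ℕ) * Real.pi / p)) ∧
      φ (1 + dir (Real.pi / p)) < 0 := by
  have hs := sin_pos_aux p h2 1 le_rfl (by omega)
  rw [Nat.cast_one, one_mul] at hs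
  have hp : (0 : ℝ) < p := by positivity
  set a := (m : ℝ) * Real.pi / p with ha
  set b := ((m + 1 : ℕ) : ℝ) * Real.pi / p with hb
  have hba : b - a = Real.pi / p := by
    rw [ha, hb]; push_cast; ring
  have hval : ∀ α β : ℝ, cr α β a b (1 + dir (Real.pi / p)) =
      α * (-(Real.sin a + Real.sin (((m - 1 : ℕ) : ℝ) * Real.pi / p))) +
      β * (Real.sin b + Real.sin a) := by
    intro α β
    rw [map_add, ← dir_zero, cr_dir, cr_dir]
    have e1 : (0 : ℝ) - a = -a := by ring
    have e2 : Real.pi / p - a = -(((m - 1 : ℕ) : ℝ) * Real.pi / p) := by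
      rw [ha, Nat.cast_sub h1]; push_cast; ring
    have e3 : b - 0 = b := by ring
    have e4 : b - Real.pi / p = a := by rw [← hba]; ring
    rw [e1, e2, e3, e4, Real.sin_neg, Real.sin_neg]
    ring
  have hpos : ∀ α β : ℝ, 0 < α → 0 < β → 0 < cr α β a b (dir a) ∧ 0 < cr α β a b (dir b) := by
    intro α β hα hβ
    rw [cr_dir, cr_dir, sub_self, sub_self, Real.sin_zero, hba]
    constructor
    · have := mul_pos hβ hs; linarith
    · have := mul_pos hα hs; linarith
  rcases le_or_gt m p with hmp | hmp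
  · -- the first coefficient is negative
    set A := -(Real.sin a + Real.sin (((m - 1 : ℕ) : ℝ) * Real.pi / p)) with hA
    have hAneg : A < 0 := by
      have n1 := sin_nonneg_aux p h2 m hmp
      have n2 := sin_nonneg_aux p h2 (m - 1) (by omega)
      rcases hmp.lt_or_eq with hlt | heq
      · have := sin_pos_aux p h2 m h1 hlt
        rw [hA, ha]; linarith
      · have := sin_pos_aux p h2 (m - 1) (by omega) (by omega)
        rw [hA, ha]; linarith
    set Bv := Real.sin b + Real.sin a with hBv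
    refine ⟨cr ((|Bv| + 1) / (-A)) 1 a b, ?_, ?_, ?_⟩
    · exact (hpos _ _ (div_pos (by positivity) (by linarith)) one_pos).1
    · exact (hpos _ _ (div_pos (by positivity) (by linarith)) one_pos).2
    · rw [hval]
      have h3 : (|Bv| + 1) / (-A) * A = -(|Bv| + 1) := by
        have : A ≠ 0 := hAneg.ne
        field_simp
      rw [h3]
      have := le_abs_self Bv
      linarith
  · set Bv := Real.sin b + Real.sin a with hBv
    have hBneg : Bv < 0 := by
      have n1 := sin_neg_aux p h2 m hmp hm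
      have n2 := sin_nonpos_aux p h2 (m + 1) (by omega) (by omega)
      rw [hBv, hb, ha]; linarith
    set A := -(Real.sin a + Real.sin (((m - 1 : ℕ) : ℝ) * Real.pi / p)) with hA
    refine ⟨cr 1 ((|A| + 1) / (-Bv)) a b, ?_, ?_, ?_⟩
    · exact (hpos _ _ one_pos (div_pos (by positivity) (by linarith))).1
    · exact (hpos _ _ one_pos (div_pos (by positivity) (by linarith))).2
    · rw [hval]
      have h3 : (|A| + 1) / (-Bv) * Bv = -(|A| + 1) := by
        have : Bv ≠ 0 := hBneg.ne
        field_simp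
      rw [h3]
      have := le_abs_self A
      linarith

lemma psi_eq (k : ZMod p) : (ZMod.stdAddChar k : ℂ) = dir ((2 * k.val : ℕ) * Real.pi / p) := by
  rw [ZMod.stdAddChar_apply, ZMod.toCircle_apply, ← exp_eq_dir]
  congr 1
  push_cast
  ring

lemma psi_one : (ZMod.stdAddChar (1 : ZMod p) : ℂ) = dir (2 * Real.pi / p) := by
  have h := ZMod.stdAddChar_coe (N := p) 1
  rw [Int.cast_one] at h
  rw [h, ← exp_eq_dir]
  congr 1
  push_cast
  ring

variable {n : ℕ} (s t : Fin n → ZMod p)

/-- the representation -/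
noncomputable def rho (g : ZMod p) : (Fin n → ℂ) →ₗ[ℝ] (Fin n → ℂ) :=
  LinearMap.pi fun l => (LinearMap.mulLeft ℝ (ZMod.stdAddChar (s l * g) : ℂ)).comp (LinearMap.proj l)

lemma rho_apply (g : ZMod p) (w : Fin n → ℂ) (l : Fin n) :
    rho p s g w l = ZMod.stdAddChar (s l * g) * w l := rfl

lemma rho_add (g h : ZMod p) (w : Fin n → ℂ) : rho p s (g + h) w = rho p s g (rho p s h w) := by
  funext l
  rw [rho_apply, rho_apply, rho_apply, mul_add, AddChar.map_add_eq_mul, mul_assoc]

lemma rho_zero (w : Fin n → ℂ) : rho p s 0 w = w := by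
  funext l
  rw [rho_apply, mul_zero, AddChar.map_zero_eq_one, one_mul]

lemma rho_neg (g : ZMod p) (w : Fin n → ℂ) : rho p s g (rho p s (-g) w) = w := by
  rw [← rho_add, add_neg_cancel, rho_zero]

lemma rho_single (g : ZMod p) (l : Fin n) (z : ℂ) :
    rho p s g (Pi.single l z) = Pi.single l (ZMod.stdAddChar (s l * g) * z) := by
  funext k
  rw [rho_apply]
  by_cases h : k = l
  · subst h; simp
  · rw [Pi.single_eq_of_ne h, Pi.single_eq_of_ne h, mul_zero]

lemma det_rho_pos (hp2 : p ≠ 2) (g : ZMod p) : 0 < LinearMap.det (rho p s g) := by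
  have h2 : (2 : ZMod p) ≠ 0 := by
    intro h
    have h3 : ((2 : ℕ) : ZMod p) = 0 := by exact_mod_cast h
    rw [ZMod.natCast_eq_zero_iff] at h3
    have hp := (Fact.out : p.Prime)
    have := Nat.le_of_dvd (by norm_num) h3
    have := hp.two_le
    omega
  set h := g / 2 with hh
  have hg : g = h + h := by rw [hh, ← two_mul, mul_div_cancel₀ _ h2]
  have h3 : rho p s g = (rho p s h).comp (rho p s h) := by
    refine LinearMap.ext fun w => ?_
    rw [LinearMap.comp_apply, ← rho_add, ← hg]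
  have h4 : LinearMap.det (rho p s h) * LinearMap.det (rho p s (-h)) = 1 := by
    rw [← LinearMap.det_comp]
    have : (rho p s h).comp (rho p s (-h)) = LinearMap.id := by
      refine LinearMap.ext fun w => ?_
      rw [LinearMap.comp_apply, rho_neg, LinearMap.id_apply]
    rw [this, LinearMap.det_id]
  have h5 : LinearMap.det (rho p s h) ≠ 0 := left_ne_zero_of_mul_eq_one h4
  rw [h3, LinearMap.det_comp]
  exact mul_self_pos.2 h5

/-- the special positions -/
noncomputable def pos {I : Type*} (f : I → Fin n → ℂ) : Option (I ⊕ (Fin n × Bool)) → (Fin n → ℂ)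
  | none => fun _ => 1 + dir (Real.pi / p)
  | some (Sum.inl x) => f x
  | some (Sum.inr (l, false)) => Pi.single l 1
  | some (Sum.inr (l, true)) => Pi.single l (dir (Real.pi / p))

/-- index of an edge on the polygon -/
def idx (l : Fin n) (ε : ZMod p × Bool) : ℕ := 2 * (s l * ε.1).val + (if ε.2 then 1 else 0)

lemma idx_lt (l : Fin n) (ε : ZMod p × Bool) : idx p s l ε < 2 * p := by
  have := ZMod.val_lt (s l * ε.1)
  unfold idx
  split_ifs <;> omega

lemma idx_pos (hs : ∀ l, s l ≠ 0) (l : Fin n) (ε : ZMod p × Bool) (hε : ε ≠ (0, false)) :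
    1 ≤ idx p s l ε := by
  unfold idx
  by_contra h
  have h1 : (s l * ε.1).val = 0 := by omega
  have h2 : ε.2 = false := by
    by_contra h3
    rw [Bool.not_eq_false] at h3
    rw [h3] at h
    simp at h
  rw [ZMod.val_eq_zero, mul_eq_zero] at h1
  rcases h1 with h1 | h1
  · exact hs l h1
  · exact hε (Prod.ext h1 h2)

lemma edge_vec {I : Type*} (f : I → Fin n → ℂ) (hst : ∀ l, s l * t l = 1) (l : Fin n)
    (ε : ZMod p × Bool) (v : ZMod p × (I ⊕ (Fin n × Bool))) (hv : v ∈ edge p t I l ε) :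
    rho p s v.1 (pos p f (some v.2)) = Pi.single l (dir (idx p s l ε * Real.pi / p)) ∨
    rho p s v.1 (pos p f (some v.2)) = Pi.single l (dir ((idx p s l ε + 1 : ℕ) * Real.pi / p)) := by
  obtain ⟨i, b⟩ := ε
  cases b
  · simp only [edge, Bool.false_eq_true, if_false, List.mem_cons, List.not_mem_nil, or_false] at hv
    rcases hv with rfl | rfl
    · left
      simp only [pa, pos]
      rw [rho_single, mul_one, psi_eq]
      simp [idx]
    · right
      simp only [pb, pos]
      rw [rho_single, psi_eq, dir_mul]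
      congr 2
      simp only [idx]
      push_cast
      simp
      ring
  · simp only [edge, if_true, List.mem_cons, List.not_mem_nil, or_false] at hv
    rcases hv with rfl | rfl
    · left
      simp only [pb, pos]
      rw [rho_single, psi_eq, dir_mul]
      congr 2
      simp only [idx]
      push_cast
      simp
      ring
    · right
      simp only [pa, pos]
      rw [rho_single, mul_one, mul_add, hst, AddChar.map_add_eq_mul, psi_eq, psi_one, dir_mul]
      congr 2
      simp only [idx]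
      push_cast
      simp
      ring

/-- separation for all choices of edges but the first one -/
theorem separate {I : Type*} (h2 : 2 ≤ p) (f : I → Fin n → ℂ) (hst : ∀ l, s l * t l = 1)
    (φ : Fin n → ZMod p × Bool) (hφ : ∃ j, φ j ≠ (0, false)) :
    ∃ Φ : (Fin n → ℂ) →ₗ[ℝ] ℝ,
      (∀ j, ∀ v ∈ edge p t I j (φ j), 0 < Φ (rho p s v.1 (pos p f (some v.2)))) ∧
      Φ (pos p f none) < 0 := by
  classical
  have hs : ∀ l, s l ≠ 0 := fun l h => by
    have := hst l
    rw [h, zero_mul] at this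
    exact zero_ne_one this
  obtain ⟨j0, hj0⟩ := hφ
  choose ψ hψ1 hψ2 using fun j => plane_pos p h2 (idx p s j (φ j))
  obtain ⟨ψ0, h01, h02, h03⟩ := plane_neg p h2 (idx p s j0 (φ j0)) (idx_pos p s hs j0 _ hj0)
    (idx_lt p s j0 _)
  set Bv := ∑ j ∈ Finset.univ.erase j0, ψ j (1 + dir (Real.pi / p)) with hB
  set K := (|Bv| + 1) / (-(ψ0 (1 + dir (Real.pi / p)))) with hK
  have hKpos : 0 < K := div_pos (by positivity) (by linarith)
  let Φ : (Fin n → ℂ) →ₗ[ℝ] ℝ := K • (ψ0.comp (LinearMap.proj j0)) +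
    ∑ j ∈ Finset.univ.erase j0, (ψ j).comp (LinearMap.proj j)
  have hΦ : ∀ w, Φ w = K * ψ0 (w j0) + ∑ j ∈ Finset.univ.erase j0, ψ j (w j) := by
    intro w
    simp [Φ]
  have hΦs : ∀ (j : Fin n) (z : ℂ), Φ (Pi.single j z) = if j = j0 then K * ψ0 z else ψ j z := by
    intro j z
    rw [hΦ]
    by_cases h : j = j0
    · subst h
      rw [if_pos rfl, Pi.single_eq_same, Finset.sum_eq_zero, add_zero]
      intro k hk
      rw [Pi.single_eq_of_ne (Finset.ne_of_mem_erase hk), map_zero]
    · rw [if_neg h, Pi.single_eq_of_ne (Ne.symm h), map_zero, mul_zero, zero_add,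
        Finset.sum_eq_single j]
      · rw [Pi.single_eq_same]
      · intro k _ hk
        rw [Pi.single_eq_of_ne hk, map_zero]
      · intro h'
        exact absurd (Finset.mem_erase.2 ⟨h, Finset.mem_univ _⟩) h'
  refine ⟨Φ, ?_, ?_⟩
  · intro j v hv
    by_cases hj : j = j0
    · subst hj
      rcases edge_vec p s t f hst j (φ j) v hv with h | h
      · rw [h, hΦs, if_pos rfl]; exact mul_pos hKpos h01
      · rw [h, hΦs, if_pos rfl]; exact mul_pos hKpos h02
    · rcases edge_vec p s t f hst j (φ j) v hv with h | h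
      · rw [h, hΦs, if_neg hj]; exact hψ1 j
      · rw [h, hΦs, if_neg hj]; exact hψ2 j
  · rw [hΦ]
    show K * ψ0 (1 + dir (Real.pi / p)) +
      ∑ j ∈ Finset.univ.erase j0, ψ j (1 + dir (Real.pi / p)) < 0
    rw [← hB, hK]
    have h3 : (|Bv| + 1) / (-(ψ0 (1 + dir (Real.pi / p)))) * ψ0 (1 + dir (Real.pi / p)) =
        -(|Bv| + 1) := by
      have : ψ0 (1 + dir (Real.pi / p)) ≠ 0 := h03.ne
      field_simp
    rw [h3]
    have := le_abs_self Bv
    linarith

end Pool.Agent.Helper612.TV
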