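import Mathlib
import Pool.Agent.Helper612_TV.Special

/-!
# The base simplex of the polygon sphere
-/

set_option autoImplicit false

open Module

namespace Pool.Agent.Helper612.TV

section cramer

variable {M : ℕ} {W : Type*} [AddCommGroup W] [Module ℝ W] (b : Basis (Fin M) ℝ W)

lemma det_update_sum (w : Fin M → W) (x : Fin M → ℝ) (k : Fin M) :
    b.det (Function.update w k (∑ j, x j • w j)) = x k * b.det w := by
  classical
  rw [AlternatingMap.map_update_sum]
  rw [Finset.sum_eq_single k]
  · rw [AlternatingMap.map_update_smul, Function.update_eq_self, smul_eq_mul]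
  · intro j _ hj
    rw [AlternatingMap.map_update_smul, AlternatingMap.map_update_self _ _ (Ne.symm hj), smul_zero]
  · intro h; exact absurd (Finset.mem_univ _) h

lemma chi_of_cramer (hM : 0 < M) (u : W) (w : Fin M → W)
    (h : ∀ k, 0 < b.det (Function.update w k u) * b.det w) :
    chi b u w = 1 ∨ chi b u w = -1 := by
  have hdet : b.det w ≠ 0 := by
    intro h0
    have := h ⟨0, hM⟩
    rw [h0, mul_zero] at this
    exact lt_irrefl _ this
  obtain ⟨hli, hsp⟩ := li_of_det b hdet
  have hu : u ∈ Submodule.span ℝ (Set.range w) := by rw [hsp]; trivial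
  obtain ⟨x, hx⟩ := (Submodule.mem_span_range_iff_exists_fun ℝ).1 hu
  have hxpos : ∀ k, 0 < x k := by
    intro k
    have h1 := h k
    rw [← hx, det_update_sum, mul_assoc] at h1
    exact (mul_pos_iff_of_pos_right (mul_self_pos.2 hdet)).1 h1
  unfold chi
  rw [if_pos ⟨x, hxpos, hx⟩]
  rcases lt_or_gt_of_ne hdet with h1 | h1
  · right; rw [sign_neg h1]; rfl
  · left; rw [sign_pos h1]; rfl

lemma chi_of_functional (hM : 0 < M) (u : W) (w : Fin M → W) (Φ : W →ₗ[ℝ] ℝ)
    (h : ∀ k, 0 < Φ (w k)) (hu : Φ u < 0) : chi b u w = 0 := by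
  unfold chi
  rw [if_neg]
  rintro ⟨x, hx, hxu⟩
  have h1 : Φ u = ∑ k, x k * Φ (w k) := by
    rw [← hxu, map_sum]
    exact Finset.sum_congr rfl fun k _ => by rw [map_smul, smul_eq_mul]
  haveI : Nonempty (Fin M) := ⟨⟨0, hM⟩⟩
  have h2 : 0 < ∑ k, x k * Φ (w k) :=
    Finset.sum_pos (fun k _ => mul_pos (hx k) (h k)) Finset.univ_nonempty
  linarith

end cramer

variable (p : ℕ) [Fact p.Prime] {n : ℕ} (s t : Fin n → ZMod p)

lemma edge_length {I : Type*} (l : Fin n) (ε : ZMod p × Bool) : (edge p t I l ε).length = 2 := by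
  unfold edge
  split_ifs <;> rfl

lemma flat_length {I : Type*} (φ : Fin n → ZMod p × Bool) (L : List (Fin n)) :
    (flat p t I φ L).length = 2 * L.length := by
  induction L with
  | nil => rfl
  | cons j L ih => rw [flat_cons, List.length_append, ih, edge_length, List.length_cons]; ring

lemma exists_ofFn {V : Type*} (l : List V) (M : ℕ) (h : l.length = M) :
    ∃ σ : Fin M → V, List.ofFn σ = l := by
  subst h
  exact ⟨l.get, List.ofFn_get l⟩

lemma mem_flat {I : Type*} (φ : Fin n → ZMod p × Bool) (L : List (Fin n))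
    (v : ZMod p × (I ⊕ (Fin n × Bool))) :
    v ∈ flat p t I φ L ↔ ∃ j ∈ L, v ∈ edge p t I j (φ j) := by
  unfold flat
  rw [List.mem_flatten]
  constructor
  · rintro ⟨l, hl, hv⟩
    obtain ⟨j, hj, rfl⟩ := List.mem_map.1 hl
    exact ⟨j, hj, hv⟩
  · rintro ⟨j, hj, hv⟩
    exact ⟨_, List.mem_map.2 ⟨j, hj, rfl⟩, hv⟩

lemma sum_flat {I : Type*} {W : Type*} [AddCommMonoid W] (φ : Fin n → ZMod p × Bool)
    (L : List (Fin n)) (g : ZMod p × (I ⊕ (Fin n × Bool)) → W) :
    ((flat p t I φ L).map g).sum = (L.map (fun j => ((edge p t I j (φ j)).map g).sum)).sum := by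
  induction L with
  | nil => rfl
  | cons j L ih =>
    rw [flat_cons, List.map_append, List.sum_append, ih, List.map_cons, List.sum_cons]

/-- the base simplex at the special positions: it spans, and the base vector is the sum -/
theorem base_facts {I : Type*} (h2 : 2 ≤ p) (f : I → Fin n → ℂ)
    (σ : Fin (2 * n) → ZMod p × (I ⊕ (Fin n × Bool)))
    (hσ : List.ofFn σ = flat p t I (fun _ => (0, false)) (List.finRange n))
    (b : Basis (Fin (2 * n)) ℝ (Fin n → ℂ)) (k : Fin (2 * n)) :
    0 < b.det (Function.update (fun k => rho p s (σ k).1 (pos p f (some (σ k).2))) k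
      (pos p f none)) * b.det (fun k => rho p s (σ k).1 (pos p f (some (σ k).2))) := by
  classical
  set w : Fin (2 * n) → (Fin n → ℂ) := fun k => rho p s (σ k).1 (pos p f (some (σ k).2)) with hw
  have hmem : ∀ v, v ∈ flat p t I (fun _ => (0, false)) (List.finRange n) →
      ∃ k, σ k = v := by
    intro v hv
    rw [← hσ, List.mem_ofFn] at hv
    exact hv
  have hsin := sin_pos_aux p h2 1 le_rfl (by omega)
  rw [Nat.cast_one, one_mul] at hsin
  -- spanning
  have h1 : ∀ l : Fin n, (Pi.single l (1 : ℂ) : Fin n → ℂ) ∈ Submodule.span ℝ (Set.range w) := by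
    intro l
    obtain ⟨k, hk⟩ := hmem (0, pa l) ((mem_flat p t _ _ _).2 ⟨l, List.mem_finRange l, by simp [edge]⟩)
    refine Submodule.subset_span ⟨k, ?_⟩
    rw [hw]
    simp only [hk]
    rw [rho_zero]
    rfl
  have h1' : ∀ l : Fin n, (Pi.single l (dir (Real.pi / p)) : Fin n → ℂ) ∈
      Submodule.span ℝ (Set.range w) := by
    intro l
    obtain ⟨k, hk⟩ := hmem (0, pb l) ((mem_flat p t _ _ _).2 ⟨l, List.mem_finRange l, by simp [edge]⟩)
    refine Submodule.subset_span ⟨k, ?_⟩
    rw [hw]
    simp only [hk]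
    rw [rho_zero]
    rfl
  have h3 : ∀ (l : Fin n) (z : ℂ), (Pi.single l z : Fin n → ℂ) ∈
      Submodule.span ℝ (Set.range w) := by
    intro l z
    have hz : z = (z.re - z.im * Real.cos (Real.pi / p) / Real.sin (Real.pi / p)) • (1 : ℂ) +
        (z.im / Real.sin (Real.pi / p)) • dir (Real.pi / p) := by
      apply Complex.ext
      · rw [Complex.add_re, Complex.smul_re, Complex.smul_re, Complex.one_re]
        show z.re = (z.re - z.im * Real.cos (Real.pi / p) / Real.sin (Real.pi / p)) * 1 +
          (z.im / Real.sin (Real.pi / p)) * Real.cos (Real.pi / p)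
        ring
      · rw [Complex.add_im, Complex.smul_im, Complex.smul_im, Complex.one_im]
        show z.im = (z.re - z.im * Real.cos (Real.pi / p) / Real.sin (Real.pi / p)) * 0 +
          (z.im / Real.sin (Real.pi / p)) * Real.sin (Real.pi / p)
        rw [mul_zero, zero_add, div_mul_cancel₀ _ hsin.ne']
    have : (Pi.single l z : Fin n → ℂ) =
        (z.re - z.im * Real.cos (Real.pi / p) / Real.sin (Real.pi / p)) •
          (Pi.single l (1 : ℂ) : Fin n → ℂ) +
        (z.im / Real.sin (Real.pi / p)) •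
          (Pi.single l (dir (Real.pi / p)) : Fin n → ℂ) := by
      rw [← Pi.single_smul, ← Pi.single_smul, ← Pi.single_add, ← hz]
    rw [this]
    exact Submodule.add_mem _ (Submodule.smul_mem _ _ (h1 l)) (Submodule.smul_mem _ _ (h1' l))
  have hspan : (⊤ : Submodule ℝ (Fin n → ℂ)) ≤ Submodule.span ℝ (Set.range w) := by
    intro x _
    have : x = ∑ l, Pi.single l (x l) := by
      rw [Finset.univ_sum_single]
    rw [this]
    exact Submodule.sum_mem _ fun l _ => h3 l _
  have hfin : finrank ℝ (Fin n → ℂ) = 2 * n := by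
    rw [finrank_eq_card_basis b, Fintype.card_fin]
  have hli : LinearIndependent ℝ w :=
    linearIndependent_of_top_le_span_of_card_eq_finrank hspan (by rw [Fintype.card_fin, hfin])
  have hdet : b.det w ≠ 0 := by
    have := (b.is_basis_iff_det (v := w)).1 ⟨hli, top_le_iff.1 hspan⟩
    exact this.ne_zero
  -- the base vector is the sum
  have hsum : pos p f none = ∑ k, (1 : ℝ) • w k := by
    simp only [one_smul]
    have e1 : ∑ k, w k = ((List.ofFn σ).map (fun v => rho p s v.1 (pos p f (some v.2)))).sum := by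
      rw [List.map_ofFn, List.sum_ofFn]
      rfl
    rw [e1, hσ, sum_flat]
    have e2 : ∀ j : Fin n, ((edge p t I j ((fun _ => (0, false)) j)).map
        (fun v => rho p s v.1 (pos p f (some v.2)))).sum =
        Pi.single j (1 : ℂ) + Pi.single j (dir (Real.pi / p)) := by
      intro j
      simp only [edge, Bool.false_eq_true, if_false, List.map_cons, List.map_nil, List.sum_cons,
        List.sum_nil, add_zero, rho_zero]
      rfl
    simp only [e2]
    rw [← Fin.sum_univ_def]
    simp only [← Pi.single_add]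
    funext l
    rw [Finset.sum_apply]
    rw [Finset.sum_eq_single l]
    · simp [pos]
    · intro j _ hj
      rw [Pi.single_eq_of_ne (Ne.symm hj)]
    · intro h; exact absurd (Finset.mem_univ _) h
  rw [hsum, det_update_sum, one_mul]
  exact mul_self_pos.2 hdet

end Pool.Agent.Helper612.TV
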