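import Mathlib

/-!
# Generic positions
-/

set_option autoImplicit false

open Module Topology Filter

namespace Pool.Agent.Helper612.TV

variable {M : ℕ} {W : Type*} [NormedAddCommGroup W] [NormedSpace ℝ W] [FiniteDimensional ℝ W]
  (b : Basis (Fin M) ℝ W)

lemma continuous_det : Continuous (fun w : Fin M → W => b.det w) := by
  simp only [Basis.det_apply]
  refine Continuous.matrix_det ?_
  refine continuous_matrix fun i j => ?_
  simp only [Basis.toMatrix_apply]
  have h1 : Continuous (fun x : W => b.repr x i) :=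
    ((b.coord i).continuous_of_finiteDimensional : Continuous (b.coord i))
  exact h1.comp (continuous_apply j)

lemma eventually_det_ne (A : Matrix (Fin M) (Fin M) ℝ) :
    ∀ᶠ t : ℝ in 𝓝[≠] 0, (A + t • (1 : Matrix (Fin M) (Fin M) ℝ)).det ≠ 0 := by
  have hmon : (-A).charpoly ≠ 0 := (Matrix.charpoly_monic (-A)).ne_zero
  have hfin : ((-A).charpoly.rootSet ℝ).Finite := Polynomial.rootSet_finite _ _
  have h1 : (((-A).charpoly.rootSet ℝ)ᶜ : Set ℝ) ∈ 𝓝[≠] (0 : ℝ) :=
    nhdsNE_le_cofinite 0 hfin.compl_mem_cofinite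
  filter_upwards [h1] with t ht h0
  apply ht
  rw [Polynomial.mem_rootSet]
  refine ⟨hmon, ?_⟩
  rw [Polynomial.aeval_def, Polynomial.eval₂_eq_eval_map, Algebra.algebraMap_self,
    Polynomial.map_id, Matrix.eval_charpoly]
  rw [← h0]
  congr 1
  ext i j
  simp [Matrix.scalar_apply, Matrix.diagonal_apply, Matrix.one_apply]
  ring

variable {G I : Type*} [AddGroup G] [Fintype G] [Fintype I] [DecidableEq I]
  (ρ : G → W →ₗ[ℝ] W)

lemma isOpen_generic (s : Fin M → G × I) :
    IsOpen {f : I → W | b.det (fun k => ρ (s k).1 (f (s k).2)) ≠ 0} := by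
  have h1 : Continuous (fun f : I → W => b.det (fun k => ρ (s k).1 (f (s k).2))) := by
    refine (continuous_det b).comp ?_
    refine continuous_pi fun k => ?_
    exact ((ρ (s k).1).continuous_of_finiteDimensional).comp (continuous_apply _)
  exact isOpen_ne_fun h1 continuous_const

lemma dense_generic (hρ : ∀ g w, ρ g (ρ (-g) w) = w) (s : Fin M → G × I)
    (hs : Function.Injective (fun k => (s k).2)) :
    Dense {f : I → W | b.det (fun k => ρ (s k).1 (f (s k).2)) ≠ 0} := by
  rw [dense_iff_inter_open]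
  rintro O hO ⟨f0, hf0⟩
  -- direction of perturbation
  let f1 : I → W := fun x => ∑ k, if (s k).2 = x then ρ (-(s k).1) (b k) else 0
  have hf1 : ∀ k, ρ (s k).1 (f1 (s k).2) = b k := by
    intro k
    have : f1 (s k).2 = ρ (-(s k).1) (b k) := by
      simp only [f1]
      rw [Finset.sum_eq_single k]
      · simp
      · intro j _ hj
        rw [if_neg]
        intro h
        exact hj (hs h)
      · intro h; exact absurd (Finset.mem_univ _) h
    rw [this, hρ]
  have hdet : ∀ t : ℝ, b.det (fun k => ρ (s k).1 ((f0 + t • f1) (s k).2)) =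
      (b.toMatrix (fun k => ρ (s k).1 (f0 (s k).2)) + t • (1 : Matrix (Fin M) (Fin M) ℝ)).det := by
    intro t
    rw [Basis.det_apply]
    congr 1
    ext i j
    simp only [Basis.toMatrix_apply, Pi.add_apply, Pi.smul_apply, map_add, map_smul, hf1,
      Matrix.add_apply, Matrix.smul_apply, Finsupp.coe_add, Finsupp.coe_smul]
    congr 1
    rw [Basis.repr_self, Finsupp.single_apply, Matrix.one_apply]
    simp only [eq_comm]
  have hcont : Tendsto (fun t : ℝ => f0 + t • f1) (𝓝[≠] 0) (𝓝 f0) := by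
    have : Continuous (fun t : ℝ => f0 + t • f1) := by fun_prop
    have h2 := this.tendsto 0
    simp only [zero_smul, add_zero] at h2
    exact h2.mono_left nhdsWithin_le_nhds
  have h3 : ∀ᶠ t : ℝ in 𝓝[≠] 0, f0 + t • f1 ∈ O := hcont (hO.mem_nhds hf0)
  obtain ⟨t, ht1, ht2⟩ := (h3.and (eventually_det_ne
    (b.toMatrix (fun k => ρ (s k).1 (f0 (s k).2))))).exists
  refine ⟨f0 + t • f1, ht1, ?_⟩
  show b.det _ ≠ 0
  rw [hdet]
  exact ht2

theorem exists_generic (hρ : ∀ g w, ρ g (ρ (-g) w) = w) (O : Set (I → W)) (hO : IsOpen O)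
    (hne : O.Nonempty) :
    ∃ f ∈ O, ∀ s : Fin M → G × I, Function.Injective (fun k => (s k).2) →
      b.det (fun k => ρ (s k).1 (f (s k).2)) ≠ 0 := by
  haveI : CompleteSpace W := FiniteDimensional.complete ℝ W
  have hd : Dense (⋂ s : {s : Fin M → G × I // Function.Injective (fun k => (s k).2)},
      {f : I → W | b.det (fun k => ρ (s.1 k).1 (f (s.1 k).2)) ≠ 0}) := by
    refine dense_iInter_of_isOpen (fun s => isOpen_generic b ρ s.1)
      (fun s => dense_generic b ρ hρ s.1 s.2)
  obtain ⟨f, hfO, hf⟩ := hd.inter_open_nonempty O hO hne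
  refine ⟨f, hfO, fun s hs => ?_⟩
  exact Set.mem_iInter.1 hf ⟨s, hs⟩

end Pool.Agent.Helper612.TV
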