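import Mathlib
import Pool.Agent.Helper612_TV.Acyc
import Pool.Agent.Helper612_TV.Alt
import Pool.Agent.Helper612_TV.Gen
import Pool.Agent.Helper612_TV.Base

/-!
# The main equivariant theorem for an odd prime
-/

set_option autoImplicit false

open Module

namespace Pool.Agent.Helper612.TV

variable (p : ℕ) [Fact p.Prime] {n : ℕ} (s t : Fin n → ZMod p) {I J : Type}

/-- the board of the coloured problem, with the special points added as further blocks -/
def boardX (n : ℕ) (cls : I → J) : Board (ZMod p × (I ⊕ (Fin n × Bool))) (ZMod p × (J ⊕ (Fin n × Bool)))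
    (I ⊕ (Fin n × Bool)) (J ⊕ (Fin n × Bool)) where
  row v := (v.1, Sum.map cls id v.2)
  col v := v.2
  bP ρ := ρ.2
  bQ x := Sum.map cls id x
  vert ρ x := (ρ.1, x)
  h1 _ := rfl
  hr ρ x h := Prod.ext rfl h.symm
  hc _ _ _ := rfl
  hv _ := rfl

variable [Fintype I] [Fintype J] [DecidableEq I] [DecidableEq J]

/-- rows of the coloured board -/
def SX (n : ℕ) (J : Type) [Fintype J] : Finset (ZMod p × (J ⊕ (Fin n × Bool))) :=
  Finset.univ ×ˢ (Finset.univ.map Function.Embedding.inl)

/-- columns of the coloured board -/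
def TX (n : ℕ) (I : Type) [Fintype I] : Finset (I ⊕ (Fin n × Bool)) :=
  Finset.univ.map Function.Embedding.inl

lemma card_SX : (SX p n J).card = p * Fintype.card J := by
  rw [SX, Finset.card_product, Finset.card_map, Finset.card_univ, Finset.card_univ, ZMod.card]

lemma mem_SX (ρ : ZMod p × (J ⊕ (Fin n × Bool))) : ρ ∈ SX p n J ↔ ∃ j, ρ.2 = Sum.inl j := by
  rw [SX, Finset.mem_product]
  simp only [Finset.mem_univ, true_and, Finset.mem_map, Function.Embedding.inl_apply]
  exact exists_congr fun j => eq_comm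

lemma mem_TX (x : I ⊕ (Fin n × Bool)) : x ∈ TX n I ↔ ∃ y, x = Sum.inl y := by
  rw [TX]
  simp only [Finset.mem_map, Finset.mem_univ, true_and, Function.Embedding.inl_apply]
  exact exists_congr fun j => eq_comm

variable (R : Type) [CommRing R]

/-- chains of the coloured board -/
noncomputable def ChX (n : ℕ) (cls : I → J) (q : ℕ) :
    Submodule R (ExteriorAlgebra R ((ZMod p × (I ⊕ (Fin n × Bool))) →₀ R)) :=
  Ch R (boardX p n cls) q (SX p n J) (TX n I)

lemma tau_memX (cls : I → J) {q : ℕ} (g : ZMod p)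
    {y : ExteriorAlgebra R ((ZMod p × (I ⊕ (Fin n × Bool))) →₀ R)} (hy : y ∈ ChX p R n cls q) :
    tau R p g y ∈ ChX p R n cls q := by
  unfold ChX Ch at hy
  induction hy using Submodule.span_induction with
  | mem z hz =>
    obtain ⟨l, hl, hq, rfl⟩ := hz
    rw [tau, act_mono]
    refine mono_mem R ?_ (by rw [List.length_map, hq])
    refine ⟨List.pairwise_map.2 (hl.1.imp ?_), fun w hw => ?_⟩
    · rintro v w ⟨h1, h2⟩
      refine ⟨fun h => h1 ?_, h2⟩
      simp only [boardX, sh, Prod.mk.injEq] at h ⊢
      exact ⟨add_left_cancel h.1, h.2⟩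
    · obtain ⟨v, hv, rfl⟩ := List.mem_map.1 hw
      have := hl.2 v hv
      refine ⟨?_, this.2⟩
      have h1 := (mem_SX p _).1 this.1
      exact (mem_SX p _).2 h1
  | zero => rw [map_zero]; exact Submodule.zero_mem _
  | add x y _ _ hx hy => rw [map_add]; exact Submodule.add_mem _ hx hy
  | smul c x _ hx => rw [map_smul]; exact Submodule.smul_mem _ _ hx

lemma ChX_le_ChB (cls : I → J) (q : ℕ) : ChX p R n cls q ≤ ChB R p q Finset.univ := by
  refine Submodule.span_mono ?_
  rintro z ⟨l, hl, hq, rfl⟩
  refine ⟨l, (faceB_iff p Finset.univ l).2 ⟨hl.1.imp (fun h => h.2), fun v _ => Finset.mem_univ _⟩,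
    hq, rfl⟩

lemma acX (cls : I → J) (hcls : ∀ j, 2 * p - 1 ≤ (Finset.univ.filter (fun x => cls x = j)).card)
    (q : ℕ) (hq : q < p * Fintype.card J) :
    ∀ z ∈ ChX p R n cls q, bd R z = 0 → ∃ w ∈ ChX p R n cls (q + 1), bd R w = z := by
  refine acyclic R (p * Fintype.card J) q _ _ (card_SX p) hq ?_
  rintro ⟨i, ρ⟩ hρ
  obtain ⟨j, hj⟩ := (mem_SX p _).1 hρ
  simp only at hj
  subst hj
  have h1 : ((SX p n J).filter (fun ρ' => (boardX p n cls).bP ρ' =
      (boardX p n cls).bP (i, Sum.inl j))).card ≤ p := by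
    have : (SX p n J).filter (fun ρ' => (boardX p n cls).bP ρ' =
        (boardX p n cls).bP (i, Sum.inl j)) ⊆
        Finset.univ.image (fun i' : ZMod p => (i', (Sum.inl j : J ⊕ (Fin n × Bool)))) := by
      intro ρ' hρ'
      rw [Finset.mem_filter] at hρ'
      rw [Finset.mem_image]
      exact ⟨ρ'.1, Finset.mem_univ _, Prod.ext rfl hρ'.2.symm⟩
    refine (Finset.card_le_card this).trans (Finset.card_image_le.trans ?_)
    rw [Finset.card_univ, ZMod.card]
  have h2 : 2 * p - 1 ≤ ((TX n I).filter (fun x => (boardX p n cls).bQ x =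
      (boardX p n cls).bP (i, Sum.inl j))).card := by
    refine (hcls j).trans ?_
    rw [← Finset.card_map (Function.Embedding.inl : I ↪ I ⊕ (Fin n × Bool))]
    refine Finset.card_le_card ?_
    intro x hx
    rw [Finset.mem_map] at hx
    obtain ⟨y, hy, rfl⟩ := hx
    rw [Finset.mem_filter] at hy
    rw [Finset.mem_filter, mem_TX]
    refine ⟨⟨y, rfl⟩, ?_⟩
    simp only [boardX, Function.Embedding.inl_apply, Sum.map_inl, hy.2]
  have hp := (Fact.out : p.Prime).two_le
  omega

lemma acB {I : Type} [Fintype I] [DecidableEq I] (q : ℕ) (hq : q < Fintype.card I) :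
    ∀ z ∈ ChB R p q (Finset.univ : Finset I), bd R z = 0 →
      ∃ w ∈ ChB R p (q + 1) (Finset.univ : Finset I), bd R w = z := by
  refine acyclic R (Fintype.card I) q _ _ Finset.card_univ hq ?_
  intro ρ _
  have h1 : ((Finset.univ : Finset I).filter (fun ρ' => (boardB I p).bP ρ' =
      (boardB I p).bP ρ)).card ≤ 1 := by
    rw [Finset.card_le_one]
    intro a ha b hb
    rw [Finset.mem_filter] at ha hb
    exact ha.2.trans hb.2.symm
  have h2 : 1 ≤ ((Finset.univ : Finset (ZMod p × I)).filter (fun x => (boardB I p).bQ x =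
      (boardB I p).bP ρ)).card := by
    rw [Nat.one_le_iff_ne_zero, ← Nat.pos_iff_ne_zero, Finset.card_pos]
    exact ⟨(0, ρ), Finset.mem_filter.2 ⟨Finset.mem_univ _, rfl⟩⟩
  omega

/-- The main theorem: for an odd prime there is a face of the coloured board whose image contains
the origin in its convex hull. -/
theorem main (hp2 : p ≠ 2) (hn : 0 < n) (hst : ∀ l, s l * t l = 1) [Nonempty I] (cls : I → J)
    (hcls : ∀ j, 2 * p - 1 ≤ (Finset.univ.filter (fun x => cls x = j)).card)
    (hdim : 2 * n + 1 ≤ p * Fintype.card J) (f : I → Fin n → ℂ) :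
    ∃ σ : Fin (2 * n + 1) → ZMod p × I, Function.Injective (fun k => (σ k).2) ∧
      Function.Injective (fun k => ((σ k).1, cls (σ k).2)) ∧
      (0 : Fin n → ℂ) ∈ convexHull ℝ (Set.range fun k => rho p s (σ k).1 (f (σ k).2)) := by
  classical
  by_contra hcon
  push Not at hcon
  have hp := (Fact.out : p.Prime)
  have h2p := hp.two_le
  -- functionals for the coloured faces
  have hfun : ∀ σ : {σ : Fin (2 * n + 1) → ZMod p × I // Function.Injective (fun k => (σ k).2) ∧
      Function.Injective (fun k => ((σ k).1, cls (σ k).2))},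
      ∃ Φ : (Fin n → ℂ) →ₗ[ℝ] ℝ, ∀ k, 0 < Φ (rho p s (σ.1 k).1 (f (σ.1 k).2)) := by
    intro σ
    have h0 := hcon σ.1 σ.2.1 σ.2.2
    have hcl : IsClosed (convexHull ℝ (Set.range fun k => rho p s (σ.1 k).1 (f (σ.1 k).2))) :=
      ((Set.finite_range _).isCompact_convexHull ℝ).isClosed
    obtain ⟨Φ, c, h1, h2⟩ := geometric_hahn_banach_point_closed (convex_convexHull ℝ _) hcl h0
    refine ⟨(Φ : (Fin n → ℂ) →ₗ[ℝ] ℝ), fun k => ?_⟩
    have h3 := h2 _ (subset_convexHull ℝ _ ⟨k, rfl⟩)
    rw [map_zero] at h1
    exact h1.trans h3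
  choose ΦX hΦX using hfun
  -- functionals for the wrong edges
  choose ΦE hΦE1 hΦE2 using fun φ : {φ : Fin n → ZMod p × Bool // ∃ j, φ j ≠ (0, false)} =>
    separate p s t h2p f hst φ.1 φ.2
  -- basis and base simplex
  have hfin : finrank ℝ (Fin n → ℂ) = 2 * n := by
    rw [Module.finrank_pi_fintype]
    simp [mul_comm]
  let b : Basis (Fin (2 * n)) ℝ (Fin n → ℂ) := finBasisOfFinrankEq ℝ _ hfin
  obtain ⟨σ0, hσ0⟩ := exists_ofFn (flat p t I (fun _ => (0, false)) (List.finRange n)) (2 * n)
    (by rw [flat_length, List.length_finRange])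
  -- the open set
  let O1 : Set (Option (I ⊕ (Fin n × Bool)) → (Fin n → ℂ)) :=
    {F | ∀ σ k, 0 < ΦX σ (rho p s (σ.1 k).1 (F (some (Sum.inl (σ.1 k).2))))}
  let O2 : Set (Option (I ⊕ (Fin n × Bool)) → (Fin n → ℂ)) :=
    {F | ∀ φ : {φ : Fin n → ZMod p × Bool // ∃ j, φ j ≠ (0, false)}, ∀ j,
      ∀ v : ZMod p × (I ⊕ (Fin n × Bool)), v ∈ edge p t I j (φ.1 j) →
        0 < ΦE φ (rho p s v.1 (F (some v.2)))}
  let O3 : Set (Option (I ⊕ (Fin n × Bool)) → (Fin n → ℂ)) :=
    {F | ∀ φ : {φ : Fin n → ZMod p × Bool // ∃ j, φ j ≠ (0, false)}, ΦE φ (F none) < 0}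
  let O4 : Set (Option (I ⊕ (Fin n × Bool)) → (Fin n → ℂ)) :=
    {F | ∀ k : Fin (2 * n),
      0 < b.det (Function.update (fun k => rho p s (σ0 k).1 (F (some (σ0 k).2))) k (F none)) *
        b.det (fun k => rho p s (σ0 k).1 (F (some (σ0 k).2)))}
  have crho : ∀ g, Continuous (rho p s g) := fun g => (rho p s g).continuous_of_finiteDimensional
  have hO1 : IsOpen O1 := by
    have : O1 = ⋂ σ, ⋂ k, {F | 0 < ΦX σ (rho p s (σ.1 k).1 (F (some (Sum.inl (σ.1 k).2))))} := by
      ext F; simp [O1]
    rw [this]
    refine isOpen_iInter_of_finite fun σ => isOpen_iInter_of_finite fun k => ?_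
    exact isOpen_lt continuous_const (((ΦX σ).continuous_of_finiteDimensional).comp
      ((crho _).comp (continuous_apply _)))
  have hO2 : IsOpen O2 := by
    have : O2 = ⋂ φ : {φ : Fin n → ZMod p × Bool // ∃ j, φ j ≠ (0, false)}, ⋂ j,
        ⋂ v : {v : ZMod p × (I ⊕ (Fin n × Bool)) // v ∈ edge p t I j (φ.1 j)},
        {F | 0 < ΦE φ (rho p s v.1.1 (F (some v.1.2)))} := by
      ext F; simp [O2]
    rw [this]
    refine isOpen_iInter_of_finite fun φ => isOpen_iInter_of_finite fun j =>
      isOpen_iInter_of_finite fun v => ?_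
    exact isOpen_lt continuous_const (((ΦE φ).continuous_of_finiteDimensional).comp
      ((crho _).comp (continuous_apply _)))
  have hO3 : IsOpen O3 := by
    have : O3 = ⋂ φ : {φ : Fin n → ZMod p × Bool // ∃ j, φ j ≠ (0, false)},
        {F | ΦE φ (F none) < 0} := by
      ext F; simp [O3]
    rw [this]
    refine isOpen_iInter_of_finite fun φ => ?_
    exact isOpen_lt (((ΦE φ).continuous_of_finiteDimensional).comp (continuous_apply _))
      continuous_const
  have hO4 : IsOpen O4 := by
    have : O4 = ⋂ k : Fin (2 * n), {F |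
        0 < b.det (Function.update (fun k => rho p s (σ0 k).1 (F (some (σ0 k).2))) k (F none)) *
        b.det (fun k => rho p s (σ0 k).1 (F (some (σ0 k).2)))} := by
      ext F; simp [O4]
    rw [this]
    refine isOpen_iInter_of_finite fun k => ?_
    have c1 : Continuous (fun F : Option (I ⊕ (Fin n × Bool)) → (Fin n → ℂ) =>
        (fun k => rho p s (σ0 k).1 (F (some (σ0 k).2)))) :=
      continuous_pi fun k => (crho _).comp (continuous_apply _)
    have c2 : Continuous (fun F : Option (I ⊕ (Fin n × Bool)) → (Fin n → ℂ) =>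
        Function.update (fun k => rho p s (σ0 k).1 (F (some (σ0 k).2))) k (F none)) :=
      c1.update k (continuous_apply _)
    exact isOpen_lt continuous_const (((continuous_det b).comp c2).mul ((continuous_det b).comp c1))
  obtain ⟨F, ⟨⟨⟨hF1, hF2⟩, hF3⟩, hF4⟩, hgen⟩ := exists_generic b (rho p s)
    (fun g w => rho_neg p s g w) (O1 ∩ O2 ∩ O3 ∩ O4)
    (((hO1.inter hO2).inter hO3).inter hO4)
    ⟨pos p f, ⟨⟨⟨fun σ k => hΦX σ k, fun φ j v hv => hΦE1 φ j v hv⟩, fun φ => hΦE2 φ⟩,
      fun k => base_facts p s t h2p f σ0 hσ0 b k⟩⟩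
  -- vectors of vertices
  set vec : ZMod p × (I ⊕ (Fin n × Bool)) → (Fin n → ℂ) :=
    fun v => rho p s v.1 (F (some v.2)) with hvec
  set u := F none with hu
  let Fz : (Fin (2 * n) → ZMod p × (I ⊕ (Fin n × Bool))) → ZMod p :=
    fun σ => ((chi b u (fun k => vec (σ k)) : ℤ) : ZMod p)
  have hFz1 : ∀ (σ : Fin (2 * n) → ZMod p × (I ⊕ (Fin n × Bool))) (i j : Fin (2 * n)), i ≠ j →
      Fz (σ ∘ Equiv.swap i j) = - Fz σ := by
    intro σ i j hij
    have := chi_swap b u (fun k => vec (σ k)) hij
    show ((chi b u ((fun k => vec (σ k)) ∘ Equiv.swap i j) : ℤ) : ZMod p) = _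
    rw [this]
    push_cast
    rfl
  have hFz2 : ∀ (σ : Fin (2 * n) → ZMod p × (I ⊕ (Fin n × Bool))) (i j : Fin (2 * n)), i ≠ j →
      σ i = σ j → Fz σ = 0 := by
    intro σ i j hij h
    have := chi_eq_zero_of_eq b u (fun k => vec (σ k)) hij (by simp only [h])
    show ((chi b u (fun k => vec (σ k)) : ℤ) : ZMod p) = 0
    rw [this]; simp
  set L := fn (ZMod p) (2 * n) Fz hFz1 hFz2 with hL
  -- the interval lemma for tuples with distinct points
  have hK : ∀ σ : Fin (2 * n + 1) → ZMod p × (I ⊕ (Fin n × Bool)),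
      Function.Injective (fun k => (σ k).2) →
      L (bd (ZMod p) (mono (ZMod p) (List.ofFn σ))) =
        ((kap b (fun k => vec (σ k)) : ℤ) : ZMod p) := by
    intro σ hσ
    have hint := interval_lemma b u (fun k => vec (σ k)) (by
      intro i
      have := hgen (fun k => ((σ (i.succAbove k)).1, some (σ (i.succAbove k)).2)) (by
        intro a c hac
        simp only [Option.some.injEq] at hac
        exact Fin.succAbove_right_injective (hσ hac))
      exact this) (by
      intro i j hij
      obtain ⟨j', hj'⟩ := Fin.exists_succAbove_eq (Ne.symm hij)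
      have hdet := hgen (Function.update
        (fun k => ((σ (i.succAbove k)).1, some (σ (i.succAbove k)).2)) j' (0, none)) (by
        intro a c hac
        simp only at hac
        by_cases ha : a = j'
        · by_cases hc : c = j'
          · rw [ha, hc]
          · rw [ha, Function.update_self, Function.update_of_ne hc] at hac
            simp at hac
        · by_cases hc : c = j'
          · rw [hc, Function.update_self, Function.update_of_ne ha] at hac
            simp at hac
          · rw [Function.update_of_ne ha, Function.update_of_ne hc] at hac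
            simp only [Option.some.injEq] at hac
            exact Fin.succAbove_right_injective (hσ hac))
      have hli := (li_of_det b hdet).1
      have hnot := hli.notMem_span_image (s := {j'}ᶜ) (x := j') (by simp)
      have e1 : rho p s (Function.update
        (fun k => ((σ (i.succAbove k)).1, some (σ (i.succAbove k)).2)) j'
          ((0 : ZMod p), (none : Option (I ⊕ (Fin n × Bool)))) j').1
          (F (Function.update
        (fun k => ((σ (i.succAbove k)).1, some (σ (i.succAbove k)).2)) j'
          ((0 : ZMod p), (none : Option (I ⊕ (Fin n × Bool)))) j').2) = u := by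
        rw [Function.update_self, rho_zero]
      rw [e1] at hnot
      intro hmem
      apply hnot
      refine Submodule.span_mono ?_ hmem
      rintro _ ⟨k, ⟨hki, hkj⟩, rfl⟩
      obtain ⟨k', hk'⟩ := Fin.exists_succAbove_eq hki
      refine ⟨k', ?_, ?_⟩
      · intro h
        rw [Set.mem_singleton_iff] at h
        apply hkj
        rw [← hk', h, hj']
      · have hne : k' ≠ j' := by
          rintro rfl
          apply hkj
          rw [← hk', hj']
        simp only
        rw [Function.update_of_ne hne, hk'])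
    rw [bd_ofFn, map_sum, ← hint]
    push_cast
    refine Finset.sum_congr rfl fun i _ => ?_
    rw [map_smul, hL, fn_ofFn, smul_eq_mul]
    rfl
  -- vanishing on the coloured board
  have hLX : ∀ z ∈ ChX p (ZMod p) n cls (2 * n + 1), L (bd (ZMod p) z) = 0 := by
    intro z hz
    unfold ChX Ch at hz
    induction hz using Submodule.span_induction with
    | mem z hz =>
      obtain ⟨l, hl, hq, rfl⟩ := hz
      obtain ⟨σ, rfl⟩ := exists_ofFn l _ hq
      have hσ1 : ∀ i j, i ≠ j → (boardX p n cls).row (σ i) ≠ (boardX p n cls).row (σ j) ∧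
          (boardX p n cls).col (σ i) ≠ (boardX p n cls).col (σ j) := by
        intro i j hij
        haveI : Std.Symm (fun v w => (boardX p n cls).row v ≠ (boardX p n cls).row w ∧
          (boardX p n cls).col v ≠ (boardX p n cls).col w) :=
          ⟨fun _ _ hab => ⟨hab.1.symm, hab.2.symm⟩⟩
        have h1 := List.pairwise_ofFn.1 hl.1
        rcases lt_or_gt_of_ne hij with h | h
        · exact h1 h
        · have := h1 h
          exact ⟨this.1.symm, this.2.symm⟩
      have hinj : Function.Injective (fun k => (σ k).2) := by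
        intro i j hij
        by_contra hne
        exact (hσ1 i j hne).2 hij
      rw [hK σ hinj]
      have hleft : ∀ k, ∃ y, (σ k).2 = Sum.inl y := by
        intro k
        have := (hl.2 (σ k) (by rw [List.mem_ofFn]; exact ⟨k, rfl⟩)).2
        exact (mem_TX _).1 this
      choose y hy using hleft
      let τ : {σ : Fin (2 * n + 1) → ZMod p × I // Function.Injective (fun k => (σ k).2) ∧
          Function.Injective (fun k => ((σ k).1, cls (σ k).2))} :=
        ⟨fun k => ((σ k).1, y k), by
          intro i j hij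
          simp only at hij
          apply hinj
          simp only
          rw [hy, hy, hij], by
          intro i j hij
          by_contra hne
          apply (hσ1 i j hne).1
          simp only [Prod.mk.injEq] at hij
          simp only [boardX, Prod.mk.injEq]
          refine ⟨hij.1, ?_⟩
          rw [hy, hy, Sum.map_inl, Sum.map_inl, hij.2]⟩
      have hkap : kap b (fun k => vec (σ k)) = 0 := by
        refine kap_eq_zero b _ (ΦX τ) (fun k => ?_)
        have := hF1 τ k
        simp only [hvec]
        rw [hy k]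
        exact this
      rw [hkap]; simp
    | zero => simp
    | add x y _ _ hx hy => rw [map_add, map_add, hx, hy, add_zero]
    | smul c x _ hx => rw [map_smul, map_smul, hx, smul_zero]
  -- vanishing on norms
  have hLB : ∀ z ∈ ChB (ZMod p) p (2 * n + 1) (Finset.univ : Finset (I ⊕ (Fin n × Bool))),
      L (bd (ZMod p) (nm (ZMod p) p z)) = 0 := by
    intro z hz
    unfold ChB Ch at hz
    induction hz using Submodule.span_induction with
    | mem z hz =>
      obtain ⟨l, hl, hq, rfl⟩ := hz
      obtain ⟨σ, rfl⟩ := exists_ofFn l _ hq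
      rw [faceB_iff] at hl
      have hinj : Function.Injective (fun k => (σ k).2) := by
        intro i j hij
        by_contra hne
        have h1 := List.pairwise_ofFn.1 hl.1
        rcases lt_or_gt_of_ne hne with h | h
        · exact h1 h hij
        · exact h1 h hij.symm
      rw [nm_apply, map_sum, map_sum]
      have hg : ∀ g : ZMod p, L (bd (ZMod p) (tau (ZMod p) p g (mono (ZMod p) (List.ofFn σ)))) =
          ((kap b (fun k => vec (σ k)) : ℤ) : ZMod p) := by
        intro g
        rw [tau, act_mono, List.map_ofFn, hK (sh p g ∘ σ) hinj]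
        congr 1
        have : (fun k => vec ((sh p g ∘ σ) k)) = (rho p s g) ∘ (fun k => vec (σ k)) := by
          funext k
          simp only [hvec, Function.comp_apply, sh, rho_add]
        rw [this]
        exact kap_map b _ _ (det_rho_pos p s hp2 g)
      rw [Finset.sum_congr rfl (fun g _ => hg g), Finset.sum_const, Finset.card_univ, ZMod.card,
        nsmul_eq_mul, CharP.cast_eq_zero, zero_mul]
    | zero => simp
    | add x y _ _ hx hy => simp only [map_add, hx, hy, add_zero]
    | smul c x _ hx => simp only [map_smul, hx, smul_zero]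
  -- the two ladders
  obtain ⟨x, hx0, hx1, hx2⟩ := ladder (ZMod p) p (fun q => ChX p (ZMod p) n cls q)
    (fun q g x hx => tau_memX p (ZMod p) cls g hx) (one_mem _ _ _) (2 * n + 1)
    (fun q hq => acX p (ZMod p) cls hcls q (by omega))
  obtain ⟨y, hy0, hy1, hy2, hy3, -, -⟩ := ladderL (I := I) (ZMod p) p s t hst (List.finRange n)
    (List.nodup_finRange n)
  rw [List.length_finRange] at hy1 hy2 hy3
  have hcard : 2 * n < Fintype.card (I ⊕ (Fin n × Bool)) := by
    rw [Fintype.card_sum, Fintype.card_prod, Fintype.card_fin, Fintype.card_bool]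
    have : 0 < Fintype.card I := Fintype.card_pos
    omega
  obtain ⟨m, rfl⟩ : ∃ m, n = m + 1 := ⟨n - 1, by omega⟩
  obtain ⟨h, hh, k, hk, hxy⟩ := ladder_compare (ZMod p) p
    (fun q => ChB (ZMod p) p q (Finset.univ : Finset (I ⊕ (Fin (m + 1) × Bool))))
    (fun q g x hx => tau_memB (ZMod p) p g hx) (2 * (m + 1))
    (fun q hq => acB p (ZMod p) q (by omega)) x y hx0 hy0
    (fun q hq => ChX_le_ChB p (ZMod p) cls q (hx1 q (by omega)))
    (fun q hq => ChB_mono (ZMod p) p q (Finset.subset_univ _) (hy1 q hq))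
    (fun q hq => hx2 q (by omega)) hy2 (2 * m + 1) (by omega)
  have hth : (th (ZMod p) p (2 * m + 1 + 1) :
      ExteriorAlgebra (ZMod p) ((ZMod p × (I ⊕ (Fin (m + 1) × Bool))) →₀ ZMod p) →ₗ[ZMod p] _) =
      nm (ZMod p) p := by
    rw [th_succ, if_neg (by rw [Nat.not_even_iff_odd]; exact ⟨m, rfl⟩)]
  have e2 : 2 * (m + 1) = 2 * m + 1 + 1 := by ring
  rw [hth] at hk
  have hA : L (nm (ZMod p) p (x (2 * m + 1 + 1))) = 0 := by
    have h1 := hx2 (2 * m + 1 + 1) (by omega)
    rw [hth] at h1
    rw [← h1]
    exact hLX _ (by rw [e2]; exact hx1 _ (by omega))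
  have hB : L (nm (ZMod p) p (y (2 * m + 1 + 1))) = 0 := by
    have h1 := congrArg (fun z => L (nm (ZMod p) p z)) hxy
    simp only [map_sub, map_add, hk, hA] at h1
    have h3 := hLB h (by rw [e2]; exact hh)
    rw [bd_nm] at h3
    rw [h3] at h1
    simpa using h1
  -- evaluation of the polygons
  rw [e2, hth] at hy3
  rw [hy3] at hB
  have hprod : ((List.finRange (m + 1)).map (fun j => nm (ZMod p) p (ell (ZMod p) p s t I j))).prod =
      (∏ j, s j) •
        ((List.finRange (m + 1)).map (fun j => nm (ZMod p) p (EE (ZMod p) p t I j))).prod := by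
    have hgen2 : ∀ Ls : List (Fin (m + 1)),
        (Ls.map (fun j => nm (ZMod p) p (ell (ZMod p) p s t I j))).prod =
        ((Ls.map s).prod) • (Ls.map (fun j => nm (ZMod p) p (EE (ZMod p) p t I j))).prod := by
      intro Ls
      induction Ls with
      | nil => simp
      | cons j Ls ih =>
        rw [List.map_cons, List.prod_cons, ih, nm_ell, List.map_cons, List.prod_cons, List.map_cons,
          List.prod_cons, smul_mul_smul_comm, ZMod.natCast_val, ZMod.cast_id', id]
    rw [hgen2, ← List.ofFn_eq_map, List.prod_ofFn]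
  rw [hprod, map_smul, smul_eq_mul, mul_eq_zero] at hB
  rcases hB with hB | hB
  · rw [Finset.prod_eq_zero_iff] at hB
    obtain ⟨j, _, hj⟩ := hB
    have := hst j
    rw [hj, zero_mul] at this
    exact zero_ne_one this
  · have hexp := prod_polygons (I := I) (ZMod p) p t (List.finRange (m + 1)) (List.nodup_finRange _)
    have hspan : ∀ z ∈ Submodule.span (ZMod p) {z | ∃ φ : Fin (m + 1) → ZMod p × Bool,
        (∃ j ∈ List.finRange (m + 1), φ j ≠ (0, false)) ∧
        z = mono (ZMod p) (flat p t I φ (List.finRange (m + 1)))}, L z = 0 := by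
      intro z hz
      induction hz using Submodule.span_induction with
      | mem z hz =>
        obtain ⟨φ, ⟨j, _, hj⟩, rfl⟩ := hz
        obtain ⟨σ, hσ⟩ := exists_ofFn (flat p t I φ (List.finRange (m + 1))) (2 * (m + 1))
          (by rw [flat_length, List.length_finRange])
        rw [← hσ, hL, fn_ofFn]
        show ((chi b u (fun k => vec (σ k)) : ℤ) : ZMod p) = 0
        rw [chi_of_functional b (by omega) u _ (ΦE ⟨φ, ⟨j, hj⟩⟩)]
        · simp
        · intro k
          have hmem : σ k ∈ flat p t I φ (List.finRange (m + 1)) := by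
            rw [← hσ, List.mem_ofFn]; exact ⟨k, rfl⟩
          obtain ⟨j', _, hj'⟩ := (mem_flat p t _ _ _).1 hmem
          exact hF2 ⟨φ, ⟨j, hj⟩⟩ j' (σ k) hj'
        · exact hF3 ⟨φ, ⟨j, hj⟩⟩
      | zero => simp
      | add x y _ _ hx hy => rw [map_add, hx, hy, add_zero]
      | smul c x _ hx => rw [map_smul, hx, smul_zero]
    have h5 := hspan _ hexp
    rw [map_sub, hB, zero_sub, neg_eq_zero, ← hσ0, hL, fn_ofFn] at h5
    have h6 := chi_of_cramer b (by omega) u (fun k => vec (σ0 k)) (fun k => hF4 k)
    have h7 : ((chi b u (fun k => vec (σ0 k)) : ℤ) : ZMod p) = 0 := h5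
    rcases h6 with h6 | h6
    · rw [h6] at h7
      simp at h7
    · rw [h6] at h7
      simp at h7

end Pool.Agent.Helper612.TV
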