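import Mathlib
import Pool.Agent.Helper612_TV.Main

/-!
# The coloured Tverberg theorem with many rows for an odd prime
-/

set_option autoImplicit false

open Module

namespace Pool.Agent.Helper612.TV

lemma conv_weights {ι E : Type*} [Fintype ι] [AddCommGroup E] [Module ℝ E] (v : ι → E) (x : E)
    (hx : x ∈ convexHull ℝ (Set.range v)) :
    ∃ c : ι → ℝ, (∀ i, 0 ≤ c i) ∧ ∑ i, c i = 1 ∧ ∑ i, c i • v i = x := by
  classical
  rw [convexHull_range_eq_exists_affineCombination] at hx
  obtain ⟨S, c, hc0, hc1, hc⟩ := hx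
  rw [Finset.affineCombination_eq_linear_combination _ _ _ hc1] at hc
  refine ⟨fun i => if i ∈ S then c i else 0, fun i => ?_, ?_, ?_⟩
  · simp only
    split_ifs with h
    · exact hc0 i h
    · exact le_rfl
  · rw [← hc1]; simp
  · rw [← hc]
    simp only [ite_smul, zero_smul]
    rw [Finset.sum_ite_mem, Finset.univ_inter]

variable (p : ℕ) [Fact p.Prime]

/-- a function on `ZMod p` all of whose nontrivial Fourier coefficients vanish is constant -/
lemma const_of_fourier (Y : ZMod p → ℂ)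
    (h : ∀ k : ZMod p, k ≠ 0 → ∑ g, (ZMod.stdAddChar (k * g) : ℂ) * Y g = 0) (g : ZMod p) :
    (p : ℂ) * Y g = ∑ g', Y g' := by
  have h1 : ∑ k : ZMod p, (ZMod.stdAddChar (-(k * g)) : ℂ) *
      ∑ g', (ZMod.stdAddChar (k * g') : ℂ) * Y g' = ∑ g', Y g' := by
    rw [Finset.sum_eq_single 0]
    · simp
    · intro k _ hk
      rw [h k hk, mul_zero]
    · intro hh; exact absurd (Finset.mem_univ _) hh
  rw [← h1]
  simp only [Finset.mul_sum]
  rw [Finset.sum_comm]
  have h2 : ∀ g' : ZMod p, ∑ k : ZMod p, (ZMod.stdAddChar (-(k * g)) : ℂ) *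
      ((ZMod.stdAddChar (k * g') : ℂ) * Y g') = (if g' - g = 0 then (p : ℂ) else 0) * Y g' := by
    intro g'
    have h3 := AddChar.sum_mulShift (R := ZMod p) (g' - g) (ZMod.isPrimitive_stdAddChar p)
    rw [ZMod.card] at h3
    have h4 : (if g' - g = 0 then (p : ℂ) else 0) = ((if g' - g = 0 then p else 0 : ℕ) : ℂ) := by
      split_ifs <;> simp
    rw [h4, ← h3, Finset.sum_mul]
    refine Finset.sum_congr rfl fun k _ => ?_
    rw [← mul_assoc, ← AddChar.map_add_eq_mul]
    congr 2
    ring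
  rw [Finset.sum_congr rfl (fun g' _ => h2 g'), Finset.sum_eq_single g]
  · rw [if_pos (sub_self g)]
  · intro g' _ hg'
    rw [if_neg (sub_ne_zero.2 hg'), zero_mul]
  · intro hh; exact absurd (Finset.mem_univ _) hh

variable {I J : Type} [Fintype I] [Fintype J] [DecidableEq I] [DecidableEq J]

/-- extension of a partial colouring-respecting injection -/
lemma extend {K : Type*} [Fintype K] (cls : I → J)
    (hcls : ∀ j, 2 * p - 1 ≤ (Finset.univ.filter (fun x => cls x = j)).card)
    (σ : K → ZMod p × I) (h1 : Function.Injective (fun k => (σ k).2))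
    (h2 : Function.Injective (fun k => ((σ k).1, cls (σ k).2))) (j : J) :
    ∃ π : ZMod p → I, Function.Injective π ∧ (∀ g, cls (π g) = j) ∧
      ∀ k, cls (σ k).2 = j → π (σ k).1 = (σ k).2 := by
  classical
  have hp := (Fact.out : p.Prime).two_le
  have hne : Nonempty I := by
    have : 0 < (Finset.univ.filter (fun x => cls x = j)).card := by
      have := hcls j
      omega
    obtain ⟨x, _⟩ := Finset.card_pos.1 this
    exact ⟨x⟩
  let f : ZMod p → I := fun g =>
    if h : ∃ k, (σ k).1 = g ∧ cls (σ k).2 = j then (σ h.choose).2 else Classical.arbitrary I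
  let S : Finset (ZMod p) := Finset.univ.filter (fun g => ∃ k, (σ k).1 = g ∧ cls (σ k).2 = j)
  have hf : ∀ k, cls (σ k).2 = j → f (σ k).1 = (σ k).2 := by
    intro k hk
    have hex : ∃ k', (σ k').1 = (σ k).1 ∧ cls (σ k').2 = j := ⟨k, rfl, hk⟩
    have h3 : f (σ k).1 = (σ hex.choose).2 := dif_pos hex
    have h4 := hex.choose_spec
    have h5 : hex.choose = k := by
      apply h2
      simp only [Prod.mk.injEq]
      exact ⟨h4.1, by rw [h4.2, hk]⟩
    rw [h3, h5]
  have himg : S.image f ⊆ Finset.univ.filter (fun x => cls x = j) := by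
    intro x hx
    obtain ⟨g, hg, rfl⟩ := Finset.mem_image.1 hx
    obtain ⟨k, hk1, hk2⟩ := (Finset.mem_filter.1 hg).2
    rw [Finset.mem_filter]
    refine ⟨Finset.mem_univ _, ?_⟩
    rw [← hk1, hf k hk2, hk2]
  have hinj : Set.InjOn f S := by
    intro g hg g' hg' hgg
    obtain ⟨k, hk1, hk2⟩ := (Finset.mem_filter.1 (Finset.mem_coe.1 hg)).2
    obtain ⟨k', hk1', hk2'⟩ := (Finset.mem_filter.1 (Finset.mem_coe.1 hg')).2
    rw [← hk1, ← hk1', hf k hk2, hf k' hk2'] at hgg
    have : k = k' := h1 hgg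
    rw [← hk1, ← hk1', this]
  obtain ⟨t, ht1, ht2, ht3⟩ := Finset.exists_subsuperset_card_eq (n := p) himg
    (Finset.card_image_le.trans ((Finset.card_le_univ S).trans (by rw [ZMod.card])))
    (by have := hcls j; omega)
  obtain ⟨g, hg⟩ := Finset.exists_equiv_extend_of_card_eq (α := ZMod p) (t := t)
    (by rw [ZMod.card, ht3]) ht1 hinj
  refine ⟨fun x => (g x : I), fun x y hxy => g.injective (Subtype.ext hxy), fun x => ?_,
    fun k hk => ?_⟩
  · exact (Finset.mem_filter.1 (ht2 (g x).2)).2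
  · simp only
    rw [hg _ (Finset.mem_filter.2 ⟨Finset.mem_univ _, k, rfl, hk⟩), hf k hk]

/-- The coloured Tverberg theorem of Vrećica and Živaljević for an odd prime, affine case, with
classes given by a map from a finite set of labels. -/
theorem vz (hp2 : p ≠ 2) (cls : I → J)
    (hcls : ∀ j, 2 * p - 1 ≤ (Finset.univ.filter (fun x => cls x = j)).card) (D : ℕ)
    (hdim : (p - 1) * (D + 1) + 1 ≤ p * Fintype.card J) (a : I → Fin D → ℝ) :
    ∃ π : ZMod p → J → I, (∀ g j, cls (π g j) = j) ∧ (∀ j, Function.Injective (fun g => π g j)) ∧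
      ∃ (lam : ZMod p → J → ℝ) (z : Fin D → ℝ), (∀ g j, 0 ≤ lam g j) ∧ (∀ g, ∑ j, lam g j = 1) ∧
        ∀ g, ∑ j, lam g j • a (π g j) = z := by
  classical
  have hp := (Fact.out : p.Prime)
  obtain ⟨m, hm⟩ := hp.odd_of_ne_two hp2
  have hm0 : 0 < m := by
    have := hp.two_le
    omega
  set n := m * (D + 1) with hn
  let eq : Fin n ≃ Fin m × Fin (D + 1) := finProdFinEquiv.symm
  let s : Fin n → ZMod p := fun l => (((eq l).1.val + 1 : ℕ) : ZMod p)
  have hs : ∀ l, s l ≠ 0 := by
    intro l h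
    have h1 := (ZMod.natCast_eq_zero_iff _ _).1 h
    have h2 := Nat.le_of_dvd (by omega) h1
    have := (eq l).1.isLt
    omega
  let t : Fin n → ZMod p := fun l => (s l)⁻¹
  have hst : ∀ l, s l * t l = 1 := fun l => mul_inv_cancel₀ (hs l)
  let h : I → Fin (D + 1) → ℝ := fun x => Fin.cons 1 (a x)
  let f : I → Fin n → ℂ := fun x l => ((h x (eq l).2 : ℝ) : ℂ)
  have hJ : Nonempty J := by
    by_contra hno
    rw [not_nonempty_iff] at hno
    have : Fintype.card J = 0 := Fintype.card_eq_zero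
    rw [this] at hdim
    omega
  have hI : Nonempty I := by
    obtain ⟨j⟩ := hJ
    have h1 : 0 < (Finset.univ.filter (fun x => cls x = j)).card := by
      have := hcls j
      have := hp.two_le
      omega
    obtain ⟨x, _⟩ := Finset.card_pos.1 h1
    exact ⟨x⟩
  obtain ⟨σ, hσ1, hσ2, hσ3⟩ := main p s t hp2 (Nat.mul_pos hm0 (Nat.succ_pos D)) hst cls hcls (by
    have : (p - 1) * (D + 1) = 2 * (m * (D + 1)) := by
      rw [hm, Nat.add_sub_cancel]; ring
    rw [← this]; exact hdim) f
  obtain ⟨c, hc0, hc1, hc⟩ := conv_weights _ _ hσ3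
  -- row sums
  let Y : ZMod p → Fin (D + 1) → ℝ := fun g e => ∑ k, if (σ k).1 = g then c k * h (σ k).2 e else 0
  have hsumY : ∀ (k : ZMod p) (e : Fin (D + 1)),
      ∑ g, (ZMod.stdAddChar (k * g) : ℂ) * (Y g e : ℂ) =
      ∑ i, (ZMod.stdAddChar (k * (σ i).1) : ℂ) * ((c i * h (σ i).2 e : ℝ) : ℂ) := by
    intro k e
    simp only [Y]
    push_cast
    simp only [Finset.mul_sum]
    rw [Finset.sum_comm]
    refine Finset.sum_congr rfl fun i _ => ?_
    rw [Finset.sum_eq_single (σ i).1]
    · simp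
    · intro g _ hg
      rw [if_neg (Ne.symm hg)]; simp
    · intro hh; exact absurd (Finset.mem_univ _) hh
  have hpos : ∀ (b : Fin m) (e : Fin (D + 1)),
      ∑ g, (ZMod.stdAddChar ((((b.val + 1 : ℕ) : ZMod p)) * g) : ℂ) * (Y g e : ℂ) = 0 := by
    intro b e
    rw [hsumY]
    have h1 := congrFun hc (eq.symm (b, e))
    rw [Finset.sum_apply] at h1
    simp only [Pi.smul_apply, Pi.zero_apply, rho_apply, s, f, Equiv.apply_symm_apply] at h1
    rw [← h1]
    refine Finset.sum_congr rfl fun i _ => ?_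
    rw [Complex.real_smul]
    push_cast
    ring
  have hall : ∀ (e : Fin (D + 1)) (k : ZMod p), k ≠ 0 →
      ∑ g, (ZMod.stdAddChar (k * g) : ℂ) * (Y g e : ℂ) = 0 := by
    intro e k hk
    have hkval : 0 < k.val := Nat.pos_of_ne_zero (fun h0 => hk ((ZMod.val_eq_zero k).1 h0))
    have hklt := ZMod.val_lt k
    by_cases hle : k.val ≤ m
    · have h1 := hpos ⟨k.val - 1, by omega⟩ e
      have h2 : (((k.val - 1 + 1 : ℕ) : ZMod p)) = k := by
        rw [Nat.sub_add_cancel hkval, ZMod.natCast_zmod_val]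
      simp only [h2] at h1
      exact h1
    · have h1 := hpos ⟨p - k.val - 1, by omega⟩ e
      have h2 : (((p - k.val - 1 + 1 : ℕ) : ZMod p)) = -k := by
        rw [Nat.sub_add_cancel (by omega), Nat.cast_sub hklt.le, ZMod.natCast_zmod_val]
        simp
      simp only [h2] at h1
      have h3 := congrArg (starRingEnd ℂ) h1
      rw [map_sum, map_zero] at h3
      rw [← h3]
      refine Finset.sum_congr rfl fun g _ => ?_
      rw [map_mul (starRingEnd ℂ), Complex.conj_ofReal, ← AddChar.map_neg_eq_conj, neg_mul,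
        neg_neg]
  have hconst : ∀ (e : Fin (D + 1)) (g : ZMod p), (p : ℝ) * Y g e = ∑ g', Y g' e := by
    intro e g
    have h1 := const_of_fourier p (fun g => (Y g e : ℂ)) (hall e) g
    exact_mod_cast h1
  have hY0 : ∀ g, (p : ℝ) * Y g 0 = 1 := by
    intro g
    rw [hconst 0 g]
    simp only [Y, h, Fin.cons_zero, mul_one]
    rw [Finset.sum_comm, ← hc1]
    refine Finset.sum_congr rfl fun i _ => ?_
    simp
  choose π hπ1 hπ2 hπ3 using fun j => extend p cls hcls σ hσ1 hσ2 j
  refine ⟨fun g j => π j g, fun g j => hπ2 j g, fun j => hπ1 j,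
    fun g j => (p : ℝ) * ∑ k, if (σ k).1 = g ∧ cls (σ k).2 = j then c k else 0,
    fun e => (p : ℝ) * Y 0 e.succ, ?_, ?_, ?_⟩
  · intro g j
    refine mul_nonneg (Nat.cast_nonneg _) (Finset.sum_nonneg fun k _ => ?_)
    split_ifs
    · exact hc0 k
    · exact le_rfl
  · intro g
    rw [← hY0 g, ← Finset.mul_sum, Finset.sum_comm]
    congr 1
    simp only [Y, h, Fin.cons_zero, mul_one]
    refine Finset.sum_congr rfl fun k _ => ?_
    by_cases hk : (σ k).1 = g
    · simp [hk]
    · simp [hk]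
  · intro g
    funext e
    have h1 : (p : ℝ) * Y 0 e.succ = (p : ℝ) * Y g e.succ := by
      rw [hconst, hconst]
    rw [h1, Finset.sum_apply]
    simp only [Pi.smul_apply, smul_eq_mul, mul_assoc, ← Finset.mul_sum, Finset.sum_mul]
    congr 1
    rw [Finset.sum_comm]
    simp only [Y, h, Fin.cons_succ]
    refine Finset.sum_congr rfl fun k _ => ?_
    by_cases hk : (σ k).1 = g
    · rw [if_pos hk, Finset.sum_eq_single (cls (σ k).2)]
      · rw [if_pos ⟨hk, rfl⟩, ← hk, hπ3 _ k rfl]
      · intro j _ hj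
        rw [if_neg (fun h' => hj h'.2.symm), zero_mul]
      · intro hh; exact absurd (Finset.mem_univ _) hh
    · rw [if_neg hk]
      refine Finset.sum_eq_zero fun j _ => ?_
      rw [if_neg (fun h' => hk h'.1), zero_mul]

end Pool.Agent.Helper612.TV
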